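import Mathlib

/-!
# The core of a subdomain containing the core: pseudoconvex examples

In every dimension `n ≥ 2` we exhibit holomorphically convex domains `G ⊆ Ω` of `ℂⁿ`, `G` bounded,
with `core Ω ⊆ G` and `core G = ∅ ≠ core Ω`; moreover `core Ω = Ω ∩ {z_j = 0}` for a coordinate `j`.

`Ω` is the Hartogs type domain `{z : |z_j| < 1 for j ≠ 0, |z_0| ∏_k fac_k(z_1)^{2^{-(k+1)}} < 1}`
with `fac_k(ζ) = max(|ζ - a_k|, δ_k)/2`, `a_k = 2^{-(k+1)}`, `δ_k = (k+2)^{-2^{k+1}}` (in the file: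
`H_0 = |z_0|`, `H_{k+1} = H_k² fac_k(z_1)`, and `H_k < 1` for some `k`), and
`G = {z ∈ Ω : |z_0| < 8}`.

* The slice `z_1 = a_k` of `Ω` contains the disc `|z_0| ≤ k + 2`, so (three circles) a bounded
  above plurisubharmonic function on `Ω` is constant in the direction `z_0` on the slice `z_1 = 0`.
* For `z_1 ≠ 0` the number `z_0` is bounded on `Ω` near `z_1`, and
  `A ∑_{j ≥ 1} |z_j|² + χ(|z_0|² - K |z_1 - c|² + 1)` is a test function.
* `H_k` is a maximum of finitely many moduli of polynomials, which gives holomorphic convexity.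
-/

open Complex Set Filter Topology Metric InnerProductSpace Laplacian
open scoped ComplexOrder ContDiff

namespace Pool.Agent.Results.MP_902c37_an.PseudoconvexSubdomain

/-! ## The definitions used in the statement -/

/-- The Wirtinger derivative `∂f/∂z_j = (1/2) (∂f/∂x_j - i ∂f/∂y_j)`. -/
noncomputable def dz {n : ℕ} (j : Fin n) (f : (Fin n → ℂ) → ℂ) (z : Fin n → ℂ) : ℂ :=
  (1 / 2) * (fderiv ℝ f z (Pi.single j 1) - I * fderiv ℝ f z (Pi.single j I))

/-- The Wirtinger derivative `∂f/∂\bar z_j = (1/2) (∂f/∂x_j + i ∂f/∂y_j)`. -/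
noncomputable def dzbar {n : ℕ} (j : Fin n) (f : (Fin n → ℂ) → ℂ) (z : Fin n → ℂ) : ℂ :=
  (1 / 2) * (fderiv ℝ f z (Pi.single j 1) + I * fderiv ℝ f z (Pi.single j I))

/-- The Levi form `Lev(φ)(z, ξ) = ∑_{j,k} (∂²φ/∂z_j ∂\bar z_k)(z) ξ_j \bar ξ_k`. -/
noncomputable def levi {n : ℕ} (φ : (Fin n → ℂ) → ℝ) (z ξ : Fin n → ℂ) : ℂ :=
  ∑ j, ∑ k, dz j (dzbar k (fun x => (φ x : ℂ))) z * ξ j * (starRingEnd ℂ) (ξ k)

/-- `φ` is a smooth plurisubharmonic function on the open set `D`: it is `C^∞` on `D` and its Levi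
form is nonnegative at every point of `D` (in the order of `ℂ`: real and nonnegative). -/
def SmoothPSH {n : ℕ} (D : Set (Fin n → ℂ)) (φ : (Fin n → ℂ) → ℝ) : Prop :=
  ContDiffOn ℝ ∞ φ D ∧ ∀ z ∈ D, ∀ ξ : Fin n → ℂ, 0 ≤ levi φ z ξ

/-- `φ` is strictly plurisubharmonic at `z`. -/
def StrictAt {n : ℕ} (φ : (Fin n → ℂ) → ℝ) (z : Fin n → ℂ) : Prop :=
  ∀ ξ : Fin n → ℂ, ξ ≠ 0 → 0 < levi φ z ξ

/-- The core of `D`: the points of `D` at which no smooth plurisubharmonic function on `D` that is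
bounded from above is strictly plurisubharmonic. -/
def core {n : ℕ} (D : Set (Fin n → ℂ)) : Set (Fin n → ℂ) :=
  {z | z ∈ D ∧ ¬ ∃ φ : (Fin n → ℂ) → ℝ, SmoothPSH D φ ∧ BddAbove (φ '' D) ∧ StrictAt φ z}

/-- `D` is holomorphically convex: for every compact `K ⊆ D` the hull
`{p ∈ D : |f(p)| ≤ sup_K |f| for all f holomorphic on D}` is contained in a compact subset
of `D`. -/
def HolConvex {n : ℕ} (D : Set (Fin n → ℂ)) : Prop :=
  ∀ K : Set (Fin n → ℂ), K ⊆ D → IsCompact K → ∃ K' : Set (Fin n → ℂ), K' ⊆ D ∧ IsCompact K' ∧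
    ∀ p ∈ D, (∀ f : (Fin n → ℂ) → ℂ, DifferentiableOn ℂ f D →
      ∀ C : ℝ, (∀ q ∈ K, ‖f q‖ ≤ C) → ‖f p‖ ≤ C) → p ∈ K'

/-! ## Second derivatives and the Levi form -/

/-- The second derivative as a bilinear form. -/
noncomputable def D2 {E : Type*} [NormedAddCommGroup E] [NormedSpace ℝ E] (φ : E → ℝ) (z u v : E) :
    ℝ :=
  fderiv ℝ (fderiv ℝ φ) z u v

lemma dz_dzbar {n : ℕ} (j k : Fin n) (φ : (Fin n → ℂ) → ℝ) (z : Fin n → ℂ) (h : ContDiffAt ℝ 2 φ z) :
    dz j (dzbar k (fun x => (φ x : ℂ))) z =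
      (1 / 4) * ((D2 φ z (Pi.single j 1) (Pi.single k 1) + D2 φ z (Pi.single j I) (Pi.single k I) : ℝ)
        + I * (D2 φ z (Pi.single j 1) (Pi.single k I) - D2 φ z (Pi.single j I) (Pi.single k 1) : ℝ)) := by
  have h1 : ∀ᶠ x in 𝓝 z, ContDiffAt ℝ 2 φ x := h.eventually (by simp)
  have key : (dzbar k (fun x => (φ x : ℂ))) =ᶠ[𝓝 z]
      fun x => (1 / 2) * ((fderiv ℝ φ x (Pi.single k 1) : ℂ) + I * (fderiv ℝ φ x (Pi.single k I) : ℂ)) := by
    filter_upwards [h1] with x hx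
    have hd : DifferentiableAt ℝ φ x := hx.differentiableAt (by simp)
    have : fderiv ℝ (fun x => (φ x : ℂ)) x = ofRealCLM.comp (fderiv ℝ φ x) := by
      have := (ofRealCLM.hasFDerivAt (x := φ x)).comp x hd.hasFDerivAt
      exact this.fderiv
    unfold dzbar
    rw [this]
    simp
  have hf : DifferentiableAt ℝ (fderiv ℝ φ) z := by
    have : ContDiffAt ℝ 1 (fderiv ℝ φ) z := h.fderiv_right (by norm_num)
    exact this.differentiableAt (by simp)
  have h2 : HasFDerivAt (fun x => (1 / 2 : ℂ) * ((fderiv ℝ φ x (Pi.single k 1) : ℂ) + I * (fderiv ℝ φ x (Pi.single k I) : ℂ)))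
      ((1 / 2 : ℂ) • (ofRealCLM.comp ((fderiv ℝ (fderiv ℝ φ) z).flip (Pi.single k 1)) +
        I • (ofRealCLM.comp ((fderiv ℝ (fderiv ℝ φ) z).flip (Pi.single k I))))) z := by
    have e1 : ∀ v : Fin n → ℂ, HasFDerivAt (fun x => (fderiv ℝ φ x v : ℂ))
        (ofRealCLM.comp ((fderiv ℝ (fderiv ℝ φ) z).flip v)) z := by
      intro v
      have a1 : HasFDerivAt (fun x => fderiv ℝ φ x v) ((fderiv ℝ (fderiv ℝ φ) z).flip v) z := by
        have := hf.hasFDerivAt.clm_apply (hasFDerivAt_const v z)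
        simpa using this
      exact (ofRealCLM.hasFDerivAt (x := fderiv ℝ φ z v)).comp z a1
    exact ((e1 _).add ((e1 _).const_mul I)).const_mul (1/2)
  have h3 : fderiv ℝ (dzbar k (fun x => (φ x : ℂ))) z = _ := (key.fderiv_eq).trans h2.fderiv
  unfold dz
  rw [h3]
  simp [D2]
  ring_nf
  simp
  ring
noncomputable def hB {n : ℕ} (B : (Fin n → ℂ) →L[ℝ] (Fin n → ℂ) →L[ℝ] ℝ) (u v : Fin n → ℂ) : ℂ :=
  ((B u v + B (I • u) (I • v) : ℝ) : ℂ) + I * ((B u (I • v) - B (I • u) v : ℝ) : ℂ)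

lemma smul_decomp {n : ℕ} (c : ℂ) (u : Fin n → ℂ) : c • u = c.re • u + c.im • (I • u) := by
  ext j
  simp only [Pi.smul_apply, Pi.add_apply, smul_eq_mul, real_smul]
  conv_lhs => rw [← re_add_im c]
  ring

lemma I_smul_decomp {n : ℕ} (c : ℂ) (u : Fin n → ℂ) : I • (c • u) = c.re • (I • u) - c.im • u := by
  ext j
  simp only [Pi.smul_apply, Pi.sub_apply, smul_eq_mul, real_smul]
  conv_lhs => rw [← re_add_im c]
  ring_nf
  simp
  ring

lemma hB_smul_left {n : ℕ} (B : (Fin n → ℂ) →L[ℝ] (Fin n → ℂ) →L[ℝ] ℝ) (c : ℂ) (u v : Fin n → ℂ) :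
    hB B (c • u) v = c * hB B u v := by
  unfold hB
  rw [I_smul_decomp c u, smul_decomp c u]
  simp only [map_add, map_sub, map_smul, FunLike.coe_add, FunLike.coe_sub, FunLike.coe_smul,
    Pi.add_apply, Pi.sub_apply, Pi.smul_apply, smul_eq_mul]
  conv_rhs => rw [← re_add_im c]
  apply Complex.ext <;> simp <;> ring

lemma hB_smul_right {n : ℕ} (B : (Fin n → ℂ) →L[ℝ] (Fin n → ℂ) →L[ℝ] ℝ) (c : ℂ) (u v : Fin n → ℂ) :
    hB B u (c • v) = (starRingEnd ℂ) c * hB B u v := by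
  unfold hB
  rw [I_smul_decomp c v, smul_decomp c v]
  simp only [map_add, map_sub, map_smul, smul_eq_mul]
  apply Complex.ext <;> simp <;> ring

lemma hB_sum_left {n : ℕ} {ι : Type*} (s : Finset ι) (B : (Fin n → ℂ) →L[ℝ] (Fin n → ℂ) →L[ℝ] ℝ)
    (u : ι → Fin n → ℂ) (v : Fin n → ℂ) : hB B (∑ i ∈ s, u i) v = ∑ i ∈ s, hB B (u i) v := by
  unfold hB
  simp only [Finset.smul_sum, map_sum, sum_apply]
  rw [Finset.sum_add_distrib, ← Finset.mul_sum, ← ofReal_sum, ← ofReal_sum, Finset.sum_add_distrib,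
    Finset.sum_sub_distrib]

lemma hB_sum_right {n : ℕ} {ι : Type*} (s : Finset ι) (B : (Fin n → ℂ) →L[ℝ] (Fin n → ℂ) →L[ℝ] ℝ)
    (u : Fin n → ℂ) (v : ι → Fin n → ℂ) : hB B u (∑ i ∈ s, v i) = ∑ i ∈ s, hB B u (v i) := by
  unfold hB
  simp only [Finset.smul_sum, map_sum]
  rw [Finset.sum_add_distrib, ← Finset.mul_sum, ← ofReal_sum, ← ofReal_sum, Finset.sum_add_distrib,
    Finset.sum_sub_distrib]

lemma hB_expand {n : ℕ} (B : (Fin n → ℂ) →L[ℝ] (Fin n → ℂ) →L[ℝ] ℝ) (ξ : Fin n → ℂ) :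
    ∑ j, ∑ k, hB B (Pi.single j 1) (Pi.single k 1) * ξ j * (starRingEnd ℂ) (ξ k) = hB B ξ ξ := by
  have h : ξ = ∑ j, ξ j • (Pi.single j (1 : ℂ) : Fin n → ℂ) := by
    ext i
    simp [Finset.sum_apply, Pi.single_apply]
  conv_rhs => rw [h]
  rw [hB_sum_left]
  refine Finset.sum_congr rfl fun j _ => ?_
  rw [hB_sum_right]
  refine Finset.sum_congr rfl fun k _ => ?_
  rw [hB_smul_left, hB_smul_right]
  ring


lemma single_I {n : ℕ} (j : Fin n) : (Pi.single j I : Fin n → ℂ) = I • Pi.single j (1 : ℂ) := by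
  ext i
  by_cases h : i = j
  · subst h; simp
  · simp [h]

/-- The Levi form is `(1/4) (D²φ(ξ, ξ) + D²φ(iξ, iξ))`. -/
lemma levi_eq {n : ℕ} (φ : (Fin n → ℂ) → ℝ) (z ξ : Fin n → ℂ) (h : ContDiffAt ℝ 2 φ z) :
    levi φ z ξ = (((D2 φ z ξ ξ + D2 φ z (I • ξ) (I • ξ)) / 4 : ℝ) : ℂ) := by
  have hB1 : ∀ j k : Fin n, dz j (dzbar k (fun x => (φ x : ℂ))) z =
      (1 / 4) * hB (fderiv ℝ (fderiv ℝ φ) z) (Pi.single j 1) (Pi.single k 1) := by
    intro j k
    rw [dz_dzbar j k φ z h]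
    simp only [hB, D2, single_I]
  have hsymm : fderiv ℝ (fderiv ℝ φ) z ξ (I • ξ) = fderiv ℝ (fderiv ℝ φ) z (I • ξ) ξ := by
    have : IsSymmSndFDerivAt ℝ φ z := h.isSymmSndFDerivAt (by simp)
    exact this ξ (I • ξ)
  have h2 : levi φ z ξ = (1 / 4) * hB (fderiv ℝ (fderiv ℝ φ) z) ξ ξ := by
    rw [← hB_expand, Finset.mul_sum]
    unfold levi
    refine Finset.sum_congr rfl fun j _ => ?_
    rw [Finset.mul_sum]
    refine Finset.sum_congr rfl fun k _ => ?_
    rw [hB1]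
    ring
  rw [h2]
  unfold hB
  rw [hsymm]
  simp [D2]
  ring

lemma D2_line {E : Type*} [NormedAddCommGroup E] [NormedSpace ℝ E] {φ : E → ℝ} {z : E}
    (h : ContDiffAt ℝ 2 φ z) (ξ : E) :
    deriv (deriv (fun t : ℝ => φ (z + t • ξ))) 0 = D2 φ z ξ ξ := by
  have h1 : ∀ᶠ x in 𝓝 z, ContDiffAt ℝ 2 φ x := h.eventually (by simp)
  have hc : Continuous (fun t : ℝ => z + t • ξ) := by fun_prop
  have hc0 : Tendsto (fun t : ℝ => z + t • ξ) (𝓝 0) (𝓝 z) := by
    have := hc.tendsto 0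
    simpa using this
  have hline : ∀ t : ℝ, HasDerivAt (fun t : ℝ => z + t • ξ) ξ t := by
    intro t
    have := ((hasDerivAt_id t).smul_const ξ).const_add z
    simpa using this
  have key : deriv (fun t : ℝ => φ (z + t • ξ)) =ᶠ[𝓝 0] fun t => fderiv ℝ φ (z + t • ξ) ξ := by
    filter_upwards [hc0.eventually h1] with t ht
    have hd : DifferentiableAt ℝ φ (z + t • ξ) := ht.differentiableAt (by simp)
    exact (hd.hasFDerivAt.comp_hasDerivAt t (hline t)).deriv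
  rw [key.deriv_eq]
  have hf : DifferentiableAt ℝ (fderiv ℝ φ) z := by
    have : ContDiffAt ℝ 1 (fderiv ℝ φ) z := h.fderiv_right (by norm_num)
    exact this.differentiableAt (by simp)
  have hf' : HasFDerivAt (fderiv ℝ φ) (fderiv ℝ (fderiv ℝ φ) z) (z + (0:ℝ) • ξ) := by
    simpa using hf.hasFDerivAt
  have h2 : HasDerivAt (fun t : ℝ => fderiv ℝ φ (z + t • ξ)) (fderiv ℝ (fderiv ℝ φ) z ξ) 0 :=
    hf'.comp_hasDerivAt 0 (hline 0)
  have h3 : HasDerivAt (fun t : ℝ => fderiv ℝ φ (z + t • ξ) ξ) (fderiv ℝ (fderiv ℝ φ) z ξ ξ) 0 := by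
    have := h2.clm_apply (hasDerivAt_const (0:ℝ) ξ)
    simpa using this
  exact h3.deriv

lemma deriv_deriv_nonpos {f : ℝ → ℝ} (hf : ContinuousAt f 0) (hmax : IsLocalMax f 0) :
    deriv (deriv f) 0 ≤ 0 := by
  by_contra hcon
  push Not at hcon
  have hd : deriv f 0 = 0 := hmax.deriv_eq_zero
  have hmin := isLocalMin_of_deriv_deriv_pos hcon hd hf
  have hconst : f =ᶠ[𝓝 0] fun _ => f 0 := by
    filter_upwards [hmax, hmin] with x h1 h2
    exact le_antisymm h1 h2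
  have : deriv (deriv f) 0 = 0 := by
    rw [hconst.deriv.deriv_eq]
    simp
  linarith

lemma D2_nonpos_of_isLocalMax {E : Type*} [NormedAddCommGroup E] [NormedSpace ℝ E] {φ : E → ℝ} {z : E}
    (h : ContDiffAt ℝ 2 φ z) (hmax : IsLocalMax φ z) (ξ : E) : D2 φ z ξ ξ ≤ 0 := by
  rw [← D2_line h ξ]
  have hc : Continuous (fun t : ℝ => z + t • ξ) := by fun_prop
  have hc0 : Tendsto (fun t : ℝ => z + t • ξ) (𝓝 0) (𝓝 z) := by
    have := hc.tendsto 0
    simpa using this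
  apply deriv_deriv_nonpos
  · have : ContinuousAt φ (z + (0:ℝ) • ξ) := by simpa using h.continuousAt
    exact ContinuousAt.comp this hc.continuousAt
  · have := hc0.eventually hmax
    filter_upwards [this] with t ht
    simpa using ht

lemma laplacian_eq_D2 (f : ℂ → ℝ) (z : ℂ) : (Δ f) z = D2 f z 1 1 + D2 f z I I := by
  simp [laplacian_eq_iteratedFDeriv_complexPlane, iteratedFDeriv_two_apply, D2]

lemma contDiffAt_normSq (c z : ℂ) : ContDiffAt ℝ 2 (fun x : ℂ => ‖x - c‖ ^ 2) z :=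
  (contDiffAt_id.sub contDiffAt_const).norm_sq ℝ

lemma laplacian_normSq (c z : ℂ) : (Δ (fun x : ℂ => ‖x - c‖ ^ 2)) z = 4 := by
  have hcd : ContDiffAt ℝ 2 (fun x : ℂ => ‖x - c‖ ^ 2) z := contDiffAt_normSq c z
  rw [laplacian_eq_D2, ← D2_line hcd 1, ← D2_line hcd I]
  have e1 : (fun t : ℝ => ‖z + t • (1:ℂ) - c‖ ^ 2) =
      fun t : ℝ => ((z - c).re + t) ^ 2 + ((z - c).im) ^ 2 := by
    ext t
    rw [← normSq_eq_norm_sq, normSq_apply]
    simp
    ring
  have e2 : (fun t : ℝ => ‖z + t • I - c‖ ^ 2) =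
      fun t : ℝ => ((z - c).re) ^ 2 + ((z - c).im + t) ^ 2 := by
    ext t
    rw [← normSq_eq_norm_sq, normSq_apply]
    simp
    ring
  have d1 : ∀ a b : ℝ, deriv (deriv (fun t : ℝ => (a + t) ^ 2 + b ^ 2)) 0 = 2 := by
    intro a b
    have : deriv (fun t : ℝ => (a + t) ^ 2 + b ^ 2) = fun t => 2 * (a + t) := by
      ext t
      have h : HasDerivAt (fun t : ℝ => (a + t) ^ 2 + b ^ 2) (2 * (a + t)) t := by
        have := (((hasDerivAt_id t).const_add a).pow 2).add_const (b ^ 2)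
        simpa using this
      exact h.deriv
    rw [this]
    have h : HasDerivAt (fun t : ℝ => 2 * (a + t)) 2 0 := by
      have := ((hasDerivAt_id (0:ℝ)).const_add a).const_mul 2
      simpa using this
    exact h.deriv
  rw [e1, e2, d1]
  have : (fun t : ℝ => ((z - c).re) ^ 2 + ((z - c).im + t) ^ 2) = (fun t : ℝ => ((z - c).im + t) ^ 2 + ((z - c).re) ^ 2) := by
    ext t; ring
  rw [this, d1]
  norm_num

lemma laplacian_log {c z : ℂ} (hz : z ≠ c) : (Δ (fun x : ℂ => Real.log ‖x - c‖)) z = 0 := by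
  have h : AnalyticAt ℂ (fun x : ℂ => x - c) z := by fun_prop
  have := AnalyticAt.harmonicAt_log_norm h (sub_ne_zero.mpr hz)
  exact this.2.eq_of_nhds

lemma contDiffAt_log {c z : ℂ} (hz : z ≠ c) : ContDiffAt ℝ 2 (fun x : ℂ => Real.log ‖x - c‖) z := by
  have h : AnalyticAt ℂ (fun x : ℂ => x - c) z := by fun_prop
  have := AnalyticAt.harmonicAt_log_norm h (sub_ne_zero.mpr hz)
  exact this.1

/-- the three circles / annulus maximum principle -/
lemma annulus_max {v : ℂ → ℝ} {c : ℂ} {r R m a : ℝ} (hr : 0 < r) (hrR : r < R)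
    (hv : ∀ x, r ≤ ‖x - c‖ → ‖x - c‖ ≤ R → ContDiffAt ℝ 2 v x)
    (hΔ : ∀ x, r ≤ ‖x - c‖ → ‖x - c‖ ≤ R → 0 ≤ (Δ v) x)
    (h1 : ∀ x, ‖x - c‖ = r → v x ≤ m)
    (h2 : ∀ x, ‖x - c‖ = R → v x ≤ m + a * Real.log (R / r))
    {x : ℂ} (hx1 : r ≤ ‖x - c‖) (hx2 : ‖x - c‖ ≤ R) :
    v x ≤ m + a * Real.log (‖x - c‖ / r) := by
  have hR : 0 < R := hr.trans hrR
  -- compact annulus
  set A : Set ℂ := {x | r ≤ ‖x - c‖ ∧ ‖x - c‖ ≤ R} with hA
  have hcn : Continuous (fun x : ℂ => ‖x - c‖) := by fun_prop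
  have hAcl : IsClosed A := (isClosed_le continuous_const hcn).inter (isClosed_le hcn continuous_const)
  have hAcomp : IsCompact A := by
    apply IsCompact.of_isClosed_subset (isCompact_closedBall c R) hAcl
    intro y hy
    simpa [dist_eq_norm] using hy.2
  have main : ∀ ε : ℝ, 0 < ε → v x ≤ m + a * Real.log (‖x - c‖ / r) + ε * R ^ 2 := by
    intro ε hε
    let h : ℂ → ℝ := (v - a • (fun x : ℂ => Real.log ‖x - c‖)) + ε • (fun x : ℂ => ‖x - c‖ ^ 2)
    have hne : ∀ y ∈ A, y ≠ c := by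
      rintro y hy rfl
      have := hy.1
      simp at this
      linarith
    have hcd : ∀ y ∈ A, ContDiffAt ℝ 2 h y := by
      intro y hy
      have e1 := hv y hy.1 hy.2
      have e2 := (contDiffAt_log (hne y hy)).const_smul a
      have e3 : ContDiffAt ℝ 2 (fun x : ℂ => ‖x - c‖ ^ 2) y := contDiffAt_normSq c y
      exact (e1.sub e2).add (e3.const_smul ε)
    have hlap : ∀ y ∈ A, 0 < (Δ h) y := by
      intro y hy
      have e1 := hv y hy.1 hy.2
      have e2 := (contDiffAt_log (hne y hy))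
      have e3 : ContDiffAt ℝ 2 (fun x : ℂ => ‖x - c‖ ^ 2) y := contDiffAt_normSq c y
      have : (Δ h) y = (Δ v) y - a • 0 + ε • 4 := by
        change (Δ ((v - a • (fun x : ℂ => Real.log ‖x - c‖)) + ε • (fun x : ℂ => ‖x - c‖ ^ 2))) y = _
        have s1 : ContDiffAt ℝ 2 (a • (fun x : ℂ => Real.log ‖x - c‖)) y := e2.const_smul a
        have s2 : ContDiffAt ℝ 2 (ε • (fun x : ℂ => ‖x - c‖ ^ 2)) y := e3.const_smul ε
        have s3 : ContDiffAt ℝ 2 (v - a • (fun x : ℂ => Real.log ‖x - c‖)) y := e1.sub s1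
        rw [ContDiffAt.laplacian_add s3 s2, ContDiffAt.laplacian_sub e1 s1,
          laplacian_smul a e2, laplacian_smul ε e3, laplacian_log (hne y hy), laplacian_normSq]
      rw [this]
      have := hΔ y hy.1 hy.2
      simp only [smul_eq_mul]
      nlinarith
    have hcont : ContinuousOn h A := fun y hy => (hcd y hy).continuousAt.continuousWithinAt
    obtain ⟨y, hyA, hymax⟩ := hAcomp.exists_isMaxOn ⟨x, hx1, hx2⟩ hcont
    have hxy : h x ≤ h y := hymax ⟨hx1, hx2⟩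
    have hybd : ‖y - c‖ = r ∨ ‖y - c‖ = R := by
      by_contra hcon
      push Not at hcon
      have hyr : r < ‖y - c‖ := lt_of_le_of_ne hyA.1 (Ne.symm hcon.1)
      have hyR : ‖y - c‖ < R := lt_of_le_of_ne hyA.2 hcon.2
      have hopen : IsOpen {x : ℂ | r < ‖x - c‖ ∧ ‖x - c‖ < R} :=
        (isOpen_lt continuous_const hcn).inter (isOpen_lt hcn continuous_const)
      have hmax : IsLocalMax h y := by
        filter_upwards [hopen.mem_nhds ⟨hyr, hyR⟩] with w hw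
        exact hymax ⟨hw.1.le, hw.2.le⟩
      have := hlap y hyA
      rw [laplacian_eq_D2] at this
      have i1 := D2_nonpos_of_isLocalMax (hcd y hyA) hmax 1
      have i2 := D2_nonpos_of_isLocalMax (hcd y hyA) hmax I
      linarith
    have hy' : h y ≤ m - a * Real.log r + ε * R ^ 2 := by
      change v y - a * Real.log ‖y - c‖ + ε * ‖y - c‖ ^ 2 ≤ _
      rcases hybd with hy | hy
      · rw [hy]
        have := h1 y hy
        have : ε * r ^ 2 ≤ ε * R ^ 2 := by gcongr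
        linarith
      · rw [hy]
        have := h2 y hy
        rw [Real.log_div hR.ne' hr.ne'] at this
        linarith
    have hx' : v x - a * Real.log ‖x - c‖ + ε * ‖x - c‖ ^ 2 ≤ m - a * Real.log r + ε * R ^ 2 :=
      hxy.trans hy'
    have hxc : 0 < ‖x - c‖ := lt_of_lt_of_le hr hx1
    rw [Real.log_div hxc.ne' hr.ne']
    have : 0 ≤ ε * ‖x - c‖ ^ 2 := by positivity
    linarith
  refine le_of_forall_pos_le_add fun η hη => ?_
  have := main (η / R ^ 2) (by positivity)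
  rwa [div_mul_cancel₀] at this
  positivity


lemma deriv_deriv_poly (a b c d e : ℝ) :
    deriv (deriv (fun t : ℝ => a + b * t + c * t ^ 2 + d * t ^ 3 + e * t ^ 4)) 0 = 2 * c := by
  have h1 : deriv (fun t : ℝ => a + b * t + c * t ^ 2 + d * t ^ 3 + e * t ^ 4) =
      fun t => b + 2 * c * t + 3 * d * t ^ 2 + 4 * e * t ^ 3 := by
    ext t
    have h : HasDerivAt (fun t : ℝ => a + b * t + c * t ^ 2 + d * t ^ 3 + e * t ^ 4)
        (b + 2 * c * t + 3 * d * t ^ 2 + 4 * e * t ^ 3) t := by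
      have h1 := (hasDerivAt_id t).const_mul b
      have h2 := (hasDerivAt_pow 2 t).const_mul c
      have h3 := (hasDerivAt_pow 3 t).const_mul d
      have h4 := (hasDerivAt_pow 4 t).const_mul e
      have := (((h1.const_add a).add h2).add h3).add h4
      refine this.congr_deriv ?_
      simp
      ring
    exact h.deriv
  rw [h1]
  have h : HasDerivAt (fun t : ℝ => b + 2 * c * t + 3 * d * t ^ 2 + 4 * e * t ^ 3) (2 * c) 0 := by
    have h1 := (hasDerivAt_id (0:ℝ)).const_mul (2 * c)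
    have h2 := (hasDerivAt_pow 2 (0:ℝ)).const_mul (3 * d)
    have h3 := (hasDerivAt_pow 3 (0:ℝ)).const_mul (4 * e)
    have := ((h1.const_add b).add h2).add h3
    refine this.congr_deriv ?_
    simp
  exact h.deriv

lemma normSq_line (a b : ℂ) (t : ℝ) :
    ‖a + t * b‖ ^ 2 = ‖a‖ ^ 2 + 2 * (a.re * b.re + a.im * b.im) * t + ‖b‖ ^ 2 * t ^ 2 := by
  rw [← normSq_eq_norm_sq, ← normSq_eq_norm_sq, ← normSq_eq_norm_sq, normSq_apply, normSq_apply,
    normSq_apply]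
  simp
  ring

/-- `|z|²`. -/
noncomputable def psi1 (n : ℕ) (z : Fin n → ℂ) : ℝ := ∑ j, ‖z j‖ ^ 2

lemma contDiff_psi1 (n : ℕ) {k : WithTop ℕ∞} : ContDiff ℝ k (psi1 n) := by
  unfold psi1
  exact ContDiff.sum fun j _ => (contDiff_apply ℝ ℂ j).norm_sq ℝ

lemma levi_psi1 (n : ℕ) (z ξ : Fin n → ℂ) : levi (psi1 n) z ξ = ((∑ j, ‖ξ j‖ ^ 2 : ℝ) : ℂ) := by
  rw [levi_eq _ _ _ (contDiff_psi1 n).contDiffAt]
  have key : ∀ ζ : Fin n → ℂ, D2 (psi1 n) z ζ ζ = 2 * ∑ j, ‖ζ j‖ ^ 2 := by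
    intro ζ
    rw [← D2_line (contDiff_psi1 n).contDiffAt ζ]
    have e : (fun t : ℝ => psi1 n (z + t • ζ)) = fun t : ℝ =>
        (∑ j, ‖z j‖ ^ 2) + (∑ j, 2 * ((z j).re * (ζ j).re + (z j).im * (ζ j).im)) * t
        + (∑ j, ‖ζ j‖ ^ 2) * t ^ 2 + 0 * t ^ 3 + 0 * t ^ 4 := by
      ext t
      unfold psi1
      have : ∀ j, ‖(z + t • ζ) j‖ ^ 2 = ‖z j‖ ^ 2 + 2 * ((z j).re * (ζ j).re + (z j).im * (ζ j).im) * t
          + ‖ζ j‖ ^ 2 * t ^ 2 := by
        intro j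
        rw [← normSq_line]
        simp [real_smul]
      simp only [this, Finset.sum_add_distrib, Finset.sum_mul]
      ring
    rw [e, deriv_deriv_poly]
  rw [key, key]
  congr 1
  simp
  ring


/-- The affine map used to slice: the point `p` with its `0`-th coordinate replaced by `ζ` and with
`w` added to the coordinate number `1`. -/
noncomputable def slice {m : ℕ} (p : Fin (m + 2) → ℂ) (ζ w : ℂ) : Fin (m + 2) → ℂ :=
  p + Pi.single 0 (ζ - p 0) + Pi.single 1 w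

lemma slice_zero {m : ℕ} (p : Fin (m + 2) → ℂ) (ζ w : ℂ) : slice p ζ w 0 = ζ := by
  simp [slice]

lemma slice_one {m : ℕ} (p : Fin (m + 2) → ℂ) (ζ w : ℂ) : slice p ζ w 1 = p 1 + w := by
  simp [slice]

lemma slice_other {m : ℕ} (p : Fin (m + 2) → ℂ) (ζ w : ℂ) (j : Fin (m + 2)) (h0 : j ≠ 0)
    (h1 : j ≠ 1) : slice p ζ w j = p j := by
  simp [slice, h0, h1]

lemma slice_self {m : ℕ} (p : Fin (m + 2) → ℂ) : slice p (p 0) 0 = p := by
  simp [slice]


lemma slice_add {m : ℕ} (p : Fin (m + 2) → ℂ) (ζ w u : ℂ) (t : ℝ) :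
    slice p (ζ + t • u) w = slice p ζ w + t • (Pi.single 0 u : Fin (m + 2) → ℂ) := by
  ext j
  by_cases h0 : j = 0
  · subst h0
    simp [slice]
  · by_cases h1 : j = 1
    · subst h1
      simp [slice]
    · simp [slice, h0, h1]

lemma continuous_slice {m : ℕ} (p : Fin (m + 2) → ℂ) :
    Continuous (fun x : ℂ × ℂ => slice p x.1 x.2) := by
  unfold slice
  refine Continuous.add (Continuous.add continuous_const ?_) ?_
  · exact (continuous_single (A := fun _ => ℂ) (0 : Fin (m + 2))).comp (by fun_prop)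
  · exact (continuous_single (A := fun _ => ℂ) (1 : Fin (m + 2))).comp (by fun_prop)

lemma contDiff_slice {m : ℕ} (p : Fin (m + 2) → ℂ) (w : ℂ) :
    ContDiff ℝ 2 (fun ζ : ℂ => slice p ζ w) := by
  rw [contDiff_pi]
  intro j
  by_cases h0 : j = 0
  · subst h0
    simp only [slice_zero]
    exact contDiff_id
  · by_cases h1 : j = 1
    · subst h1
      simp only [slice_one]
      exact contDiff_const
    · simp only [slice_other p _ w j h0 h1]
      exact contDiff_const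

lemma D2_slice {m : ℕ} {φ : (Fin (m + 2) → ℂ) → ℝ} {p : Fin (m + 2) → ℂ} {ζ w : ℂ}
    (h : ContDiffAt ℝ 2 φ (slice p ζ w)) (u : ℂ) :
    D2 (fun x => φ (slice p x w)) ζ u u = D2 φ (slice p ζ w) (Pi.single 0 u) (Pi.single 0 u) := by
  have h1 : ContDiffAt ℝ 2 (fun x => φ (slice p x w)) ζ :=
    ContDiffAt.comp ζ h (contDiff_slice p w).contDiffAt
  rw [← D2_line h1, ← D2_line h]
  congr 2
  ext t
  rw [slice_add]

lemma laplacian_slice {m : ℕ} {φ : (Fin (m + 2) → ℂ) → ℝ} {p : Fin (m + 2) → ℂ} {ζ w : ℂ}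
    (h : ContDiffAt ℝ 2 φ (slice p ζ w)) :
    (((Δ (fun x => φ (slice p x w))) ζ : ℝ) : ℂ) = 4 * levi φ (slice p ζ w) (Pi.single 0 1) := by
  rw [laplacian_eq_D2, D2_slice h, D2_slice h, levi_eq _ _ _ h, single_I]
  push_cast
  ring

lemma two_le_infty : (2 : WithTop ℕ∞) ≤ ∞ := by
  exact WithTop.coe_le_coe.mpr le_top

/-! ## The domains and their holomorphic convexity -/

/-- The points `a_k = 2^{-(k+1)}`, which tend to `0`. -/
noncomputable def pt (k : ℕ) : ℝ := 1 / 2 ^ (k + 1)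

/-- The truncation `δ_k = (k+2)^{-2^{k+1}}`. -/
noncomputable def dl (k : ℕ) : ℝ := 1 / ((k : ℝ) + 2) ^ (2 ^ (k + 1))

/-- The factor `max(|ζ - a_k|, δ_k)/2`. -/
noncomputable def fac (k : ℕ) (ζ : ℂ) : ℝ := max ‖ζ - (pt k : ℂ)‖ (dl k) / 2

/-- `H_0 = |z_0|`, `H_{k+1} = H_k² · fac_k(z_1)`. -/
noncomputable def H {m : ℕ} : ℕ → (Fin (m + 2) → ℂ) → ℝ
  | 0, z => ‖z 0‖
  | k + 1, z => H k z ^ 2 * fac k (z 1)

/-- The domains. -/
def Dom (m : ℕ) (P : Set ℂ) : Set (Fin (m + 2) → ℂ) :=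
  {z | (∀ j, j ≠ 0 → ‖z j‖ < 1) ∧ z 0 ∈ P ∧ ∃ k, H k z < 1}

lemma dl_pos (k : ℕ) : 0 < dl k := by unfold dl; positivity

lemma pt_pos (k : ℕ) : 0 < pt k := by unfold pt; positivity

lemma pt_le (k : ℕ) : pt k ≤ 1 / 2 := by
  unfold pt
  apply one_div_le_one_div_of_le (by norm_num)
  calc (2 : ℝ) = 2 ^ 1 := by norm_num
    _ ≤ 2 ^ (k + 1) := pow_le_pow_right₀ (by norm_num) (by omega)

lemma dl_le (k : ℕ) : dl k ≤ 1 := by
  unfold dl
  rw [div_le_one (by positivity)]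
  apply one_le_pow₀
  have : (0 : ℝ) ≤ k := Nat.cast_nonneg k
  linarith

lemma fac_pos (k : ℕ) (ζ : ℂ) : 0 < fac k ζ := by
  unfold fac
  have := lt_max_of_lt_right (b := ‖ζ - (pt k : ℂ)‖) (dl_pos k)
  linarith

lemma fac_lt {k : ℕ} {ζ : ℂ} (h : ‖ζ‖ < 1) : fac k ζ < 1 := by
  unfold fac
  have h1 : ‖ζ - (pt k : ℂ)‖ < 2 := by
    calc ‖ζ - (pt k : ℂ)‖ ≤ ‖ζ‖ + ‖(pt k : ℂ)‖ := norm_sub_le _ _
      _ < 1 + 1 / 2 := by
        have : ‖(pt k : ℂ)‖ ≤ 1 / 2 := by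
          rw [norm_real, Real.norm_eq_abs, abs_of_pos (pt_pos k)]
          exact pt_le k
        linarith
      _ < 2 := by norm_num
  have h2 : dl k < 2 := by linarith [dl_le k]
  have := max_lt h1 h2
  linarith

lemma continuous_fac (k : ℕ) : Continuous (fac k) := by
  unfold fac
  fun_prop

lemma H_nonneg {m : ℕ} (k : ℕ) (z : Fin (m + 2) → ℂ) : 0 ≤ H k z := by
  cases k with
  | zero => exact norm_nonneg _
  | succ k => exact mul_nonneg (sq_nonneg _) (fac_pos _ _).le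

lemma continuous_H {m : ℕ} (k : ℕ) : Continuous (H (m := m) k) := by
  induction k with
  | zero => exact (continuous_apply 0).norm
  | succ k ih => exact (ih.pow 2).mul ((continuous_fac k).comp (continuous_apply 1))

lemma H_succ_le {m : ℕ} {k : ℕ} {z : Fin (m + 2) → ℂ} (hz : ‖z 1‖ < 1) :
    H (k + 1) z ≤ H k z ^ 2 := by
  have h1 := fac_lt (k := k) hz
  change H k z ^ 2 * fac k (z 1) ≤ _
  nlinarith [sq_nonneg (H k z)]

lemma H_succ_lt {m : ℕ} {k : ℕ} {z : Fin (m + 2) → ℂ} (hz : ‖z 1‖ < 1) (h : H k z < 1) :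
    H (k + 1) z < 1 := by
  have h1 := H_succ_le (k := k) hz
  have h2 := H_nonneg k z
  nlinarith

lemma H_lt_of_le {m : ℕ} {k l : ℕ} (hkl : k ≤ l) {z : Fin (m + 2) → ℂ} (hz : ‖z 1‖ < 1)
    (h : H k z < 1) : H l z < 1 := by
  induction l, hkl using Nat.le_induction with
  | base => exact h
  | succ l _ ih => exact H_succ_lt hz ih

lemma H_mono {m : ℕ} (k : ℕ) {z z' : Fin (m + 2) → ℂ} (h1 : z 1 = z' 1) (h0 : ‖z 0‖ ≤ ‖z' 0‖) :
    H k z ≤ H k z' := by
  induction k with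
  | zero => exact h0
  | succ k ih =>
    change H k z ^ 2 * fac k (z 1) ≤ H k z' ^ 2 * fac k (z' 1)
    rw [h1]
    have := H_nonneg k z
    gcongr
    exact (fac_pos _ _).le

lemma H_zero {m : ℕ} (z : Fin (m + 2) → ℂ) : H 0 z = ‖z 0‖ := rfl

lemma H_rep {m : ℕ} (k : ℕ) : ∃ (ι : Type) (F : ι → (Fin (m + 2) → ℂ) → ℂ),
    (∀ i, Differentiable ℂ (F i)) ∧
      ∀ z, (∀ i, ‖F i z‖ ≤ H k z) ∧ ∃ i, H k z = ‖F i z‖ := by
  induction k with
  | zero =>
    refine ⟨Unit, fun _ z => z 0, fun _ => differentiable_apply 0, fun z => ⟨fun _ => le_rfl, (), rfl⟩⟩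
  | succ k ih =>
    obtain ⟨ι, F, hF, hFz⟩ := ih
    have hn : ∀ z : Fin (m + 2) → ℂ, ‖(z 1 - (pt k : ℂ)) / 2‖ = ‖z 1 - (pt k : ℂ)‖ / 2 := by
      intro z; simp
    have hd : ‖((dl k : ℂ)) / 2‖ = dl k / 2 := by
      rw [norm_div, norm_real, Real.norm_eq_abs, abs_of_pos (dl_pos k)]
      simp
    refine ⟨ι × Bool, fun i z => F i.1 z ^ 2 *
      (if i.2 then (z 1 - (pt k : ℂ)) / 2 else (dl k : ℂ) / 2), ?_, ?_⟩
    · rintro ⟨i, b⟩
      cases b
      · simpa using ((hF i).pow 2).mul_const ((dl k : ℂ) / 2)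
      · have hd1 : Differentiable ℂ fun z : Fin (m + 2) → ℂ => (z 1 - (pt k : ℂ)) / 2 := by
          fun_prop
        have hd2 := ((hF i).pow 2).mul hd1
        simp only [if_true]
        exact hd2
    · intro z
      obtain ⟨h1, i0, hi0⟩ := hFz z
      constructor
      · rintro ⟨i, b⟩
        have hi := h1 i
        change _ ≤ H k z ^ 2 * fac k (z 1)
        cases b
        · simp only [Bool.false_eq_true, if_false, norm_mul, norm_pow, hd]
          have e1 : dl k / 2 ≤ fac k (z 1) := by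
            unfold fac
            have := le_max_right ‖z 1 - (pt k : ℂ)‖ (dl k)
            linarith
          have e2 : ‖F i z‖ ^ 2 ≤ H k z ^ 2 := pow_le_pow_left₀ (norm_nonneg _) hi 2
          exact mul_le_mul e2 e1 (by linarith [dl_pos k]) (sq_nonneg _)
        · simp only [if_true, norm_mul, norm_pow, hn]
          have e1 : ‖z 1 - (pt k : ℂ)‖ / 2 ≤ fac k (z 1) := by
            unfold fac
            have := le_max_left ‖z 1 - (pt k : ℂ)‖ (dl k)
            linarith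
          have e2 : ‖F i z‖ ^ 2 ≤ H k z ^ 2 := pow_le_pow_left₀ (norm_nonneg _) hi 2
          exact mul_le_mul e2 e1 (by positivity) (sq_nonneg _)
      · rcases le_total ‖z 1 - (pt k : ℂ)‖ (dl k) with hc | hc
        · refine ⟨(i0, false), ?_⟩
          simp only [Bool.false_eq_true, if_false, norm_mul, norm_pow, hd]
          change H k z ^ 2 * fac k (z 1) = _
          rw [hi0]
          unfold fac
          rw [max_eq_right hc]
        · refine ⟨(i0, true), ?_⟩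
          simp only [if_true, norm_mul, norm_pow, hn]
          change H k z ^ 2 * fac k (z 1) = _
          rw [hi0]
          unfold fac
          rw [max_eq_left hc]

lemma isOpen_Dom (m : ℕ) {P : Set ℂ} (hP : IsOpen P) : IsOpen (Dom m P) := by
  have : Dom m P = (⋂ j, {z : Fin (m + 2) → ℂ | j ≠ 0 → ‖z j‖ < 1}) ∩
      ({z : Fin (m + 2) → ℂ | z 0 ∈ P} ∩ ⋃ k, {z : Fin (m + 2) → ℂ | H k z < 1}) := by
    ext z
    simp only [Dom, mem_ofPred_eq, mem_inter_iff, mem_iInter, mem_iUnion]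
  rw [this]
  refine IsOpen.inter ?_ (IsOpen.inter ?_ ?_)
  · refine isOpen_iInter_of_finite fun j => ?_
    by_cases hj : j = 0
    · simp [hj]
    · simp only [ne_eq, hj, not_false_eq_true, forall_true_left]
      exact isOpen_lt (by fun_prop) continuous_const
  · exact hP.preimage (continuous_apply 0)
  · exact isOpen_iUnion fun k => isOpen_lt (continuous_H k) continuous_const

lemma zero_mem_Dom (m : ℕ) {P : Set ℂ} (hP : (0 : ℂ) ∈ P) : (0 : Fin (m + 2) → ℂ) ∈ Dom m P :=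
  ⟨fun j _ => by simp, by simpa using hP, 0, by simp [H_zero]⟩

lemma isConnected_Dom (m : ℕ) {P : Set ℂ} (h0 : (0 : ℂ) ∈ P)
    (hP : ∀ ζ ∈ P, ∀ η : ℂ, ‖η‖ ≤ ‖ζ‖ → η ∈ P) : IsConnected (Dom m P) := by
  apply IsPathConnected.isConnected
  refine ⟨0, zero_mem_Dom m h0, fun y hy => ?_⟩
  obtain ⟨h1, h2, k, hk⟩ := hy
  have A : JoinedIn (Dom m P) 0 (Function.update y 0 0) := by
    refine JoinedIn.ofLine (f := fun t : ℝ => t • Function.update y 0 0) (by fun_prop) (by simp)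
      (by simp) ?_
    rintro _ ⟨t, ⟨ht0, ht1⟩, rfl⟩
    refine ⟨fun j hj => ?_, ?_, 0, ?_⟩
    · have := h1 j hj
      simp only [Pi.smul_apply, Function.update_of_ne hj, norm_smul, Real.norm_eq_abs,
        abs_of_nonneg ht0]
      nlinarith [norm_nonneg (y j)]
    · simpa using h0
    · simp [H_zero]
  have B : JoinedIn (Dom m P) (Function.update y 0 0) y := by
    refine JoinedIn.ofLine (f := fun t : ℝ => Function.update y 0 (t • y 0)) ?_ (by simp)
      (by simp) ?_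
    · apply Continuous.continuousOn
      exact continuous_const.update 0 (by fun_prop)
    · rintro _ ⟨t, ⟨ht0, ht1⟩, rfl⟩
      have hn : ‖t • y 0‖ ≤ ‖y 0‖ := by
        rw [norm_smul, Real.norm_eq_abs, abs_of_nonneg ht0]
        nlinarith [norm_nonneg (y 0)]
      refine ⟨fun j hj => ?_, ?_, k, ?_⟩
      · simpa only [Function.update_of_ne hj] using h1 j hj
      · simp only [Function.update_self]
        exact hP _ h2 _ hn
      · refine lt_of_le_of_lt (H_mono k ?_ ?_) hk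
        · simp
        · simpa only [Function.update_self] using hn
  exact A.trans B

theorem holConvex_Dom (m : ℕ) {P : Set ℂ} (hP : ∀ ζ ∈ P, ∀ η : ℂ, ‖η‖ ≤ ‖ζ‖ → η ∈ P) :
    HolConvex (Dom m P) := by
  intro K hK hKc
  rcases K.eq_empty_or_nonempty with rfl | hne
  · refine ⟨∅, empty_subset _, isCompact_empty, fun p _ hp => ?_⟩
    have := hp (fun _ => 1) (differentiableOn_const _) 0 (by simp)
    norm_num at this
  · -- one index for all of `K`
    have hcov : ∃ k, K ⊆ {z : Fin (m + 2) → ℂ | ‖z 1‖ < 1 ∧ H k z < 1} := by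
      apply hKc.elim_directed_cover (fun k => {z : Fin (m + 2) → ℂ | ‖z 1‖ < 1 ∧ H k z < 1})
      · intro k
        have o1 : IsOpen {z : Fin (m + 2) → ℂ | ‖z 1‖ < 1} :=
          isOpen_lt (by fun_prop) continuous_const
        exact o1.inter (isOpen_lt (continuous_H k) continuous_const)
      · intro z hz
        obtain ⟨h1, _, k, hk⟩ := hK hz
        exact mem_iUnion.mpr ⟨k, h1 1 (by simp), hk⟩
      · apply directed_of_isDirected_le
        intro k l hkl z hz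
        exact ⟨hz.1, H_lt_of_le hkl hz.1 hz.2⟩
    obtain ⟨k, hk⟩ := hcov
    obtain ⟨q0, hq0, hmax0⟩ := hKc.exists_isMaxOn hne (continuous_H (m := m) k).continuousOn
    have hcoord : ∀ j : Fin (m + 2), ∃ q ∈ K, ∀ z ∈ K, ‖z j‖ ≤ ‖q j‖ := by
      intro j
      obtain ⟨q, hq, hmax⟩ := hKc.exists_isMaxOn hne
        (f := fun z : Fin (m + 2) → ℂ => ‖z j‖) (by fun_prop)
      exact ⟨q, hq, fun z hz => hmax hz⟩
    choose q hqK hq using hcoord
    refine ⟨{p | (∀ j, ‖p j‖ ≤ ‖q j j‖) ∧ H k p ≤ H k q0}, ?_, ?_, ?_⟩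
    · rintro p ⟨hp1, hp2⟩
      refine ⟨fun j hj => (hp1 j).trans_lt ((hK (hqK j)).1 j hj), ?_, k, hp2.trans_lt (hk hq0).2⟩
      exact hP _ (hK (hqK 0)).2.1 _ (hp1 0)
    · have hc : IsCompact (Set.pi univ fun j : Fin (m + 2) => closedBall (0 : ℂ) ‖q j j‖) :=
        isCompact_univ_pi fun j => isCompact_closedBall _ _
      refine hc.of_isClosed_subset ?_ ?_
      · refine IsClosed.inter ?_ (isClosed_le (continuous_H k) continuous_const)
        have : {p : Fin (m + 2) → ℂ | ∀ j, ‖p j‖ ≤ ‖q j j‖} = ⋂ j, {p | ‖p j‖ ≤ ‖q j j‖} := by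
          ext p; simp
        change IsClosed {p : Fin (m + 2) → ℂ | ∀ j, ‖p j‖ ≤ ‖q j j‖}
        rw [this]
        exact isClosed_iInter fun j => isClosed_le (by fun_prop) continuous_const
      · rintro p ⟨hp1, _⟩ j _
        simpa using hp1 j
    · intro p _ hp
      refine ⟨fun j => ?_, ?_⟩
      · exact hp (fun z => z j) (differentiable_apply j).differentiableOn _ (fun z hz => hq j z hz)
      · obtain ⟨ι, F, hF, hFz⟩ := H_rep (m := m) k
        obtain ⟨i, hi⟩ := (hFz p).2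
        rw [hi]
        exact hp (F i) (hF i).differentiableOn _ (fun z hz => ((hFz z).1 i).trans (hmax0 hz))

/-- On the slice `z_1 = 0` the functions `H_k` are large as soon as `|z_0| ≥ 8`. -/
lemma H_slice {m : ℕ} {z : Fin (m + 2) → ℂ} (h1 : z 1 = 0) (h0 : 8 ≤ ‖z 0‖) (k : ℕ) :
    (2 : ℝ) ^ (k + 3) ≤ H k z := by
  induction k with
  | zero => rw [H_zero]; norm_num; exact h0
  | succ k ih =>
    change _ ≤ H k z ^ 2 * fac k (z 1)
    have h2 : (1 : ℝ) / 2 ^ (k + 2) ≤ fac k (z 1) := by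
      unfold fac
      rw [h1, zero_sub, norm_neg, norm_real, Real.norm_eq_abs, abs_of_pos (pt_pos k)]
      have : pt k ≤ max (pt k) (dl k) := le_max_left _ _
      calc (1 : ℝ) / 2 ^ (k + 2) = pt k / 2 := by
            unfold pt
            rw [pow_succ (2 : ℝ) (k + 1)]
            field_simp
        _ ≤ _ := by gcongr
    have h3 : (2 : ℝ) ^ (k + 1 + 3) = (2 ^ (k + 3)) ^ 2 * (1 / 2 ^ (k + 2)) := by
      have : (2 : ℝ) ^ (k + 2) ≠ 0 := by positivity
      field_simp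
      ring
    rw [h3]
    gcongr

lemma norm_lt_of_slice {m : ℕ} {P : Set ℂ} {z : Fin (m + 2) → ℂ} (hz : z ∈ Dom m P)
    (h1 : z 1 = 0) : ‖z 0‖ < 8 := by
  by_contra hcon
  push Not at hcon
  obtain ⟨_, _, k, hk⟩ := hz
  have := H_slice h1 hcon k
  have h2 : (1 : ℝ) ≤ 2 ^ (k + 3) := one_le_pow₀ (by norm_num)
  linarith

/-! ## A smooth convex nondecreasing function vanishing on the negative axis -/

/-- `χ(t) = t e^{-1/t}` for `t > 0` and `0` for `t ≤ 0`. -/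
noncomputable def chi (t : ℝ) : ℝ := t * expNegInvGlue t

lemma contDiff_chi {k : WithTop ℕ∞} (hk : k ≤ ∞) : ContDiff ℝ k chi := by
  have h : ContDiff ℝ ∞ expNegInvGlue := expNegInvGlue.contDiff
  exact (contDiff_id.mul h).of_le hk

lemma chi_nonpos {t : ℝ} (ht : t ≤ 0) : chi t = 0 := by
  unfold chi
  rw [expNegInvGlue.zero_of_nonpos ht, mul_zero]

lemma chi_le {t b : ℝ} (ht : t ≤ b) (hb : 0 ≤ b) : chi t ≤ b := by
  rcases le_or_gt t 0 with h | h
  · rw [chi_nonpos h]; exact hb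
  · unfold chi expNegInvGlue
    rw [if_neg (not_le.mpr h)]
    have h1 : Real.exp (-t⁻¹) ≤ 1 := by
      rw [Real.exp_le_one_iff]
      have : 0 < t⁻¹ := inv_pos.mpr h
      linarith
    nlinarith [Real.exp_pos (-t⁻¹)]

lemma chi_eventuallyEq_pos {t : ℝ} (ht : 0 < t) : chi =ᶠ[𝓝 t] fun x => x * Real.exp (-x⁻¹) := by
  filter_upwards [lt_mem_nhds ht] with x hx
  unfold chi expNegInvGlue
  rw [if_neg (not_le.mpr hx)]

lemma hasDerivAt_exp_neg_inv {t : ℝ} (ht : 0 < t) :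
    HasDerivAt (fun x : ℝ => Real.exp (-x⁻¹)) (Real.exp (-t⁻¹) * (t⁻¹) ^ 2) t := by
  have h1 : HasDerivAt (fun x : ℝ => -x⁻¹) ((t⁻¹) ^ 2) t := by
    have := (hasDerivAt_inv ht.ne').neg
    refine this.congr_deriv ?_
    rw [neg_neg, inv_pow]
  exact h1.exp

lemma deriv_chi_pos {t : ℝ} (ht : 0 < t) : deriv chi t = Real.exp (-t⁻¹) * (1 + t⁻¹) := by
  rw [(chi_eventuallyEq_pos ht).deriv_eq]
  have h := (hasDerivAt_id t).mul (hasDerivAt_exp_neg_inv ht)
  have h2 : HasDerivAt (fun x : ℝ => x * Real.exp (-x⁻¹)) (Real.exp (-t⁻¹) * (1 + t⁻¹)) t := by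
    refine h.congr_deriv ?_
    simp only [id_eq]
    field_simp
  exact h2.deriv

lemma deriv_deriv_chi_pos {t : ℝ} (ht : 0 < t) :
    deriv (deriv chi) t = Real.exp (-t⁻¹) * (t⁻¹) ^ 3 := by
  have h0 : deriv chi =ᶠ[𝓝 t] fun x => Real.exp (-x⁻¹) * (1 + x⁻¹) := by
    filter_upwards [lt_mem_nhds ht] with x hx using deriv_chi_pos hx
  rw [h0.deriv_eq]
  have h1 : HasDerivAt (fun x : ℝ => 1 + x⁻¹) (-(t ^ 2)⁻¹) t := by
    simpa using (hasDerivAt_inv ht.ne').const_add 1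
  have h := (hasDerivAt_exp_neg_inv ht).mul h1
  have h2 : HasDerivAt (fun x : ℝ => Real.exp (-x⁻¹) * (1 + x⁻¹)) (Real.exp (-t⁻¹) * (t⁻¹) ^ 3) t := by
    refine h.congr_deriv ?_
    field_simp
    ring
  exact h2.deriv

lemma chi_eventuallyEq_neg {t : ℝ} (ht : t < 0) : chi =ᶠ[𝓝 t] fun _ => 0 := by
  filter_upwards [gt_mem_nhds ht] with x hx using chi_nonpos hx.le

lemma deriv_chi_neg {t : ℝ} (ht : t < 0) : deriv chi t = 0 := by
  rw [(chi_eventuallyEq_neg ht).deriv_eq]; simp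

lemma deriv_deriv_chi_neg {t : ℝ} (ht : t < 0) : deriv (deriv chi) t = 0 := by
  rw [(chi_eventuallyEq_neg ht).deriv.deriv_eq]; simp

lemma continuous_deriv_chi : Continuous (deriv chi) :=
  (contDiff_chi (k := 1) (by exact_mod_cast le_top)).continuous_deriv le_rfl

lemma contDiff_deriv_chi : ContDiff ℝ 1 (deriv chi) := by
  have h : ContDiff ℝ (1 + 1) chi := contDiff_chi (by
    have : (1 + 1 : WithTop ℕ∞) = 2 := by norm_num
    rw [this]; exact two_le_infty)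
  exact ((contDiff_succ_iff_deriv).mp h).2.2

lemma continuous_deriv_deriv_chi : Continuous (deriv (deriv chi)) :=
  contDiff_deriv_chi.continuous_deriv le_rfl

lemma dense_ne_zero : Dense {t : ℝ | t ≠ 0} := dense_compl_singleton 0

lemma deriv_chi_mem (t : ℝ) : deriv chi t ∈ Icc (0 : ℝ) 1 := by
  have hcl : IsClosed {t : ℝ | deriv chi t ∈ Icc (0 : ℝ) 1} :=
    isClosed_Icc.preimage continuous_deriv_chi
  have hsub : {t : ℝ | t ≠ 0} ⊆ {t : ℝ | deriv chi t ∈ Icc (0 : ℝ) 1} := by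
    intro t ht
    rcases lt_or_gt_of_ne ht with h | h
    · change deriv chi t ∈ Icc (0 : ℝ) 1
      rw [deriv_chi_neg h]; simp
    · change deriv chi t ∈ Icc (0 : ℝ) 1
      rw [deriv_chi_pos h]
      have hi : 0 < t⁻¹ := inv_pos.mpr h
      refine ⟨by positivity, ?_⟩
      have h1 : 1 + t⁻¹ ≤ Real.exp (t⁻¹) := by linarith [Real.add_one_le_exp (t⁻¹)]
      calc Real.exp (-t⁻¹) * (1 + t⁻¹) ≤ Real.exp (-t⁻¹) * Real.exp (t⁻¹) := by gcongr
        _ = 1 := by rw [← Real.exp_add]; simp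
  have := hcl.closure_subset_iff.mpr hsub
  rw [dense_ne_zero.closure_eq] at this
  exact this (mem_univ t)

lemma deriv_deriv_chi_nonneg (t : ℝ) : 0 ≤ deriv (deriv chi) t := by
  have hcl : IsClosed {t : ℝ | 0 ≤ deriv (deriv chi) t} :=
    isClosed_le continuous_const continuous_deriv_deriv_chi
  have hsub : {t : ℝ | t ≠ 0} ⊆ {t : ℝ | 0 ≤ deriv (deriv chi) t} := by
    intro t ht
    rcases lt_or_gt_of_ne ht with h | h
    · change 0 ≤ deriv (deriv chi) t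
      rw [deriv_deriv_chi_neg h]
    · change 0 ≤ deriv (deriv chi) t
      rw [deriv_deriv_chi_pos h]
      positivity
  have := hcl.closure_subset_iff.mpr hsub
  rw [dense_ne_zero.closure_eq] at this
  exact this (mem_univ t)

lemma deriv_chi_pos' {t : ℝ} (ht : 0 < t) : 0 < deriv chi t := by
  rw [deriv_chi_pos ht]
  positivity

lemma deriv_deriv_comp (α β γ s b c : ℝ) :
    deriv (deriv (fun t : ℝ => α + β * t + γ * t ^ 2 + chi (s + b * t + c * t ^ 2))) 0 =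
      2 * γ + deriv (deriv chi) s * b ^ 2 + 2 * c * deriv chi s := by
  have hpoly : ∀ (x y w t : ℝ), HasDerivAt (fun t : ℝ => x + y * t + w * t ^ 2) (y + 2 * w * t) t := by
    intro x y w t
    have h1 := (hasDerivAt_id t).const_mul y
    have h2 := (hasDerivAt_pow 2 t).const_mul w
    have := (h1.const_add x).add h2
    refine this.congr_deriv ?_
    simp
    ring
  have hchi : ∀ x : ℝ, HasDerivAt chi (deriv chi x) x := fun x =>
    ((contDiff_chi (k := 1) (by exact_mod_cast le_top)).differentiable (by simp) x).hasDerivAt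
  have hchi2 : ∀ x : ℝ, HasDerivAt (deriv chi) (deriv (deriv chi) x) x := fun x =>
    (contDiff_deriv_chi.differentiable (by simp) x).hasDerivAt
  have h1 : deriv (fun t : ℝ => α + β * t + γ * t ^ 2 + chi (s + b * t + c * t ^ 2)) =
      fun t => (β + 2 * γ * t) + deriv chi (s + b * t + c * t ^ 2) * (b + 2 * c * t) := by
    ext t
    exact ((hpoly α β γ t).add ((hchi _).comp t (hpoly s b c t))).deriv
  rw [h1]
  have e1 : HasDerivAt (fun t : ℝ => β + 2 * γ * t) (2 * γ) 0 := by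
    simpa using ((hasDerivAt_id (0:ℝ)).const_mul (2 * γ)).const_add β
  have e2 : HasDerivAt (fun t : ℝ => b + 2 * c * t) (2 * c) 0 := by
    simpa using ((hasDerivAt_id (0:ℝ)).const_mul (2 * c)).const_add b
  have e3 : HasDerivAt (fun t : ℝ => deriv chi (s + b * t + c * t ^ 2))
      (deriv (deriv chi) s * b) 0 := by
    have h0 := (hchi2 (s + b * 0 + c * 0 ^ 2)).comp (0 : ℝ) (hpoly s b c 0)
    have h1 : deriv (deriv chi) (s + b * 0 + c * 0 ^ 2) * (b + 2 * c * 0) =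
        deriv (deriv chi) s * b := by simp
    rw [h1] at h0
    exact h0
  have := (e1.add (e3.mul e2)).deriv
  refine Eq.trans ?_ (this.trans ?_)
  · rfl
  · simp
    ring

/-! ## Boundedness of `z_0` away from the slice -/

lemma bound_of_H {m : ℕ} (k : ℕ) : ∀ C : ℝ, ∃ C' : ℝ, ∀ z : Fin (m + 2) → ℂ, H k z ≤ C →
    ‖z 0‖ ≤ C' := by
  induction k with
  | zero => intro C; exact ⟨C, fun z hz => hz⟩
  | succ k ih =>
    intro C
    obtain ⟨C', hC'⟩ := ih (2 * C / dl k + 1)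
    refine ⟨C', fun z hz => hC' z ?_⟩
    have hz' : H k z ^ 2 * fac k (z 1) ≤ C := hz
    have h1 : dl k / 2 ≤ fac k (z 1) := by
      unfold fac
      have := le_max_right ‖z 1 - (pt k : ℂ)‖ (dl k)
      linarith
    have hd := dl_pos k
    have h2 : H k z ^ 2 * (dl k / 2) ≤ C := by nlinarith [sq_nonneg (H k z)]
    have h3 : H k z ^ 2 ≤ 2 * C / dl k := by
      rw [le_div_iff₀ hd]
      linarith
    nlinarith [sq_nonneg (H k z - 1), H_nonneg k z]

lemma exists_bound (m : ℕ) (P : Set ℂ) {r : ℝ} (hr : 0 < r) (hr1 : r < 1) :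
    ∃ b : ℝ, 0 ≤ b ∧ ∀ z ∈ Dom m P, r / 2 ≤ ‖z 1‖ → ‖z 0‖ ≤ b := by
  obtain ⟨k0, hk0⟩ : ∃ k0 : ℕ, (1 / 2 : ℝ) ^ k0 < r / 4 :=
    exists_pow_lt_of_lt_one (by positivity) (by norm_num)
  have hpt : ∀ k, k0 ≤ k → pt k ≤ r / 4 := by
    intro k hk
    have h1 : pt k = (1 / 2 : ℝ) ^ (k + 1) := by unfold pt; rw [one_div_pow]
    rw [h1]
    have h2 : (1 / 2 : ℝ) ^ (k + 1) ≤ (1 / 2) ^ k0 :=
      pow_le_pow_of_le_one (by norm_num) (by norm_num) (by omega)
    linarith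
  obtain ⟨C', hC'⟩ := bound_of_H (m := m) k0 (8 / r)
  refine ⟨max C' 0, le_max_right _ _, fun z hz hz1 => (hC' z ?_).trans (le_max_left _ _)⟩
  by_contra hcon
  push Not at hcon
  have hfac : ∀ k, k0 ≤ k → r / 8 ≤ fac k (z 1) := by
    intro k hk
    unfold fac
    have h1 := le_max_left ‖z 1 - (pt k : ℂ)‖ (dl k)
    have h2 : ‖z 1‖ - ‖(pt k : ℂ)‖ ≤ ‖z 1 - (pt k : ℂ)‖ := norm_sub_norm_le _ _
    rw [norm_real, Real.norm_eq_abs, abs_of_pos (pt_pos k)] at h2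
    have h3 := hpt k hk
    linarith
  have hgrow : ∀ k, k0 ≤ k → 8 / r < H k z := by
    intro k hk
    induction k, hk using Nat.le_induction with
    | base => exact hcon
    | succ k hk ih =>
      change _ < H k z ^ 2 * fac k (z 1)
      have h1 := hfac k hk
      have h8 : 0 < 8 / r := by positivity
      calc 8 / r < H k z := ih
        _ = H k z * (8 / r) * (r / 8) := by field_simp
        _ ≤ H k z * H k z * (r / 8) := by
          have := H_nonneg k z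
          gcongr
        _ = H k z ^ 2 * (r / 8) := by ring
        _ ≤ _ := by gcongr
  obtain ⟨h1, _, N, hN⟩ := hz
  have e1 := hgrow (max k0 N) (le_max_left _ _)
  have e2 := H_lt_of_le (le_max_right k0 N) (h1 1 (by simp)) hN
  have e3 : 1 < 8 / r := by
    rw [lt_div_iff₀ hr]; linarith
  linarith

/-! ## The test function -/

lemma levi_congr {n : ℕ} {φ ψ : (Fin n → ℂ) → ℝ} {z : Fin n → ℂ} (h : φ =ᶠ[𝓝 z] ψ)
    (hψ : ContDiffAt ℝ 2 ψ z) (ξ : Fin n → ℂ) : levi φ z ξ = levi ψ z ξ := by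
  rw [levi_eq ψ z ξ hψ, levi_eq φ z ξ (hψ.congr_of_eventuallyEq h)]
  unfold D2
  rw [h.fderiv.fderiv_eq]

/-- The basic function `∑_{j ≥ 1} |z_j|²`. -/
noncomputable def S (m : ℕ) (z : Fin (m + 2) → ℂ) : ℝ := ∑ j : Fin (m + 1), ‖z j.succ‖ ^ 2

/-- The argument of `χ`. -/
noncomputable def arg0 (m : ℕ) (K : ℝ) (c : ℂ) (z : Fin (m + 2) → ℂ) : ℝ :=
  ‖z 0‖ ^ 2 - K * ‖z 1 - c‖ ^ 2 + 1

/-- `A ∑_{j ≥ 1} |z_j|² + χ(|z_0|² - K |z_1 - c|² + 1)`. -/
noncomputable def FF (m : ℕ) (A K : ℝ) (c : ℂ) (z : Fin (m + 2) → ℂ) : ℝ :=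
  A * S m z + chi (arg0 m K c z)

lemma contDiff_S (m : ℕ) {k : WithTop ℕ∞} : ContDiff ℝ k (S m) := by
  unfold S
  exact ContDiff.sum fun j _ => (contDiff_apply ℝ ℂ j.succ).norm_sq ℝ

lemma contDiff_FF (m : ℕ) (A K : ℝ) (c : ℂ) {k : WithTop ℕ∞} (hk : k ≤ ∞) :
    ContDiff ℝ k (FF m A K c) := by
  unfold FF
  refine (contDiff_const.mul (contDiff_S m)).add ((contDiff_chi hk).comp ?_)
  unfold arg0
  refine ContDiff.add (ContDiff.sub ((contDiff_apply ℝ ℂ 0).norm_sq ℝ)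
    (contDiff_const.mul (((contDiff_apply ℝ ℂ 1).sub contDiff_const).norm_sq ℝ))) contDiff_const

lemma line_S (m : ℕ) (z ζ : Fin (m + 2) → ℂ) (t : ℝ) : S m (z + t • ζ) =
    S m z + (∑ j : Fin (m + 1), 2 * ((z j.succ).re * (ζ j.succ).re + (z j.succ).im * (ζ j.succ).im)) * t
      + S m ζ * t ^ 2 := by
  unfold S
  have h1 : ∀ j : Fin (m + 1), ‖(z + t • ζ) j.succ‖ ^ 2 = ‖z j.succ‖ ^ 2
      + 2 * ((z j.succ).re * (ζ j.succ).re + (z j.succ).im * (ζ j.succ).im) * t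
      + ‖ζ j.succ‖ ^ 2 * t ^ 2 := by
    intro j
    rw [← normSq_line]
    simp [real_smul]
  simp only [h1, Finset.sum_add_distrib, ← Finset.sum_mul]

lemma line_arg0 (m : ℕ) (K : ℝ) (c : ℂ) (z ζ : Fin (m + 2) → ℂ) : ∃ b : ℝ, ∀ t : ℝ,
    arg0 m K c (z + t • ζ) = arg0 m K c z + b * t + (‖ζ 0‖ ^ 2 - K * ‖ζ 1‖ ^ 2) * t ^ 2 := by
  refine ⟨2 * ((z 0).re * (ζ 0).re + (z 0).im * (ζ 0).im) -
    K * (2 * ((z 1 - c).re * (ζ 1).re + (z 1 - c).im * (ζ 1).im)), fun t => ?_⟩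
  unfold arg0
  have e0 : ‖(z + t • ζ) 0‖ ^ 2 = ‖z 0 + t * ζ 0‖ ^ 2 := by simp [real_smul]
  have e1 : ‖(z + t • ζ) 1 - c‖ ^ 2 = ‖(z 1 - c) + t * ζ 1‖ ^ 2 := by
    congr 2
    simp [real_smul]
    ring
  rw [e0, e1, normSq_line, normSq_line]
  ring

lemma D2_FF (m : ℕ) (A K : ℝ) (c : ℂ) (z ζ : Fin (m + 2) → ℂ) : ∃ b : ℝ,
    D2 (FF m A K c) z ζ ζ = 2 * (A * S m ζ) + deriv (deriv chi) (arg0 m K c z) * b ^ 2
      + 2 * (‖ζ 0‖ ^ 2 - K * ‖ζ 1‖ ^ 2) * deriv chi (arg0 m K c z) := by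
  obtain ⟨b, hb⟩ := line_arg0 m K c z ζ
  refine ⟨b, ?_⟩
  rw [← D2_line (contDiff_FF m A K c two_le_infty).contDiffAt ζ, ← deriv_deriv_comp (A * S m z)
    (A * ∑ j : Fin (m + 1), 2 * ((z j.succ).re * (ζ j.succ).re + (z j.succ).im * (ζ j.succ).im))]
  congr 2
  ext t
  unfold FF
  rw [hb t, line_S]
  ring

lemma levi_FF (m : ℕ) (A K : ℝ) (c : ℂ) (z ξ : Fin (m + 2) → ℂ) : ∃ N : ℝ, 0 ≤ N ∧
    levi (FF m A K c) z ξ = ((A * S m ξ + N +
      (‖ξ 0‖ ^ 2 - K * ‖ξ 1‖ ^ 2) * deriv chi (arg0 m K c z) : ℝ) : ℂ) := by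
  obtain ⟨b1, hb1⟩ := D2_FF m A K c z ξ
  obtain ⟨b2, hb2⟩ := D2_FF m A K c z (I • ξ)
  refine ⟨deriv (deriv chi) (arg0 m K c z) * (b1 ^ 2 + b2 ^ 2) / 4, ?_, ?_⟩
  · have := deriv_deriv_chi_nonneg (arg0 m K c z)
    positivity
  · rw [levi_eq _ _ _ (contDiff_FF m A K c two_le_infty).contDiffAt, hb1, hb2]
    congr 1
    have e1 : S m (I • ξ) = S m ξ := by
      unfold S; simp
    rw [e1]
    simp
    ring

lemma levi_S (m : ℕ) (A : ℝ) (z ξ : Fin (m + 2) → ℂ) :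
    levi (fun z => A * S m z) z ξ = ((A * S m ξ : ℝ) : ℂ) := by
  have hcd : ContDiff ℝ 2 (fun z => A * S m z) := contDiff_const.mul (contDiff_S m)
  rw [levi_eq _ _ _ hcd.contDiffAt]
  have key : ∀ ζ : Fin (m + 2) → ℂ, D2 (fun z => A * S m z) z ζ ζ = 2 * (A * S m ζ) := by
    intro ζ
    rw [← D2_line hcd.contDiffAt ζ]
    have e : (fun t : ℝ => A * S m (z + t • ζ)) = fun t : ℝ =>
        (A * S m z) + (A * ∑ j : Fin (m + 1),
          2 * ((z j.succ).re * (ζ j.succ).re + (z j.succ).im * (ζ j.succ).im)) * t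
        + (A * S m ζ) * t ^ 2 + 0 * t ^ 3 + 0 * t ^ 4 := by
      ext t
      rw [line_S]
      ring
    rw [e, deriv_deriv_poly]
  rw [key, key]
  congr 1
  have e1 : S m (I • ξ) = S m ξ := by
    unfold S; simp
  rw [e1]
  ring

lemma S_nonneg (m : ℕ) (z : Fin (m + 2) → ℂ) : 0 ≤ S m z := by unfold S; positivity

lemma sq_le_S (m : ℕ) (z : Fin (m + 2) → ℂ) (j : Fin (m + 1)) : ‖z j.succ‖ ^ 2 ≤ S m z :=
  Finset.single_le_sum (f := fun j : Fin (m + 1) => ‖z j.succ‖ ^ 2) (fun i _ => by positivity)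
    (Finset.mem_univ j)

lemma S_le {m : ℕ} {P : Set ℂ} {z : Fin (m + 2) → ℂ} (hz : z ∈ Dom m P) : S m z ≤ m + 1 := by
  unfold S
  calc ∑ j : Fin (m + 1), ‖z j.succ‖ ^ 2 ≤ ∑ _j : Fin (m + 1), (1 : ℝ) := by
        refine Finset.sum_le_sum fun j _ => ?_
        have := hz.1 j.succ (Fin.succ_ne_zero j)
        nlinarith [norm_nonneg (z j.succ)]
    _ = m + 1 := by simp

theorem core_Dom_subset (m : ℕ) {P : Set ℂ} (hP : IsOpen P) {q : Fin (m + 2) → ℂ}
    (hq : q ∈ core (Dom m P)) : q 1 = 0 := by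
  by_contra hq1
  obtain ⟨hqD, hcon⟩ := hq
  apply hcon
  clear hcon
  set r : ℝ := ‖q 1‖ with hr
  have hr0 : 0 < r := norm_pos_iff.mpr hq1
  have hr1 : r < 1 := hqD.1 1 (by simp)
  obtain ⟨b, hb0, hb⟩ := exists_bound m P hr0 hr1
  set K : ℝ := 16 * (b ^ 2 + 2) / r ^ 2 with hK
  have hK0 : 0 ≤ K := by positivity
  set A : ℝ := K + 1 with hA
  -- near the middle annulus the argument of `χ` is negative
  have harg : ∀ z ∈ Dom m P, r / 2 ≤ ‖z 1‖ → ‖z 1‖ ≤ 3 * r / 4 → arg0 m K (q 1) z ≤ 0 := by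
    intro z hz h1 h2
    have e1 := hb z hz h1
    have e2 : r / 4 ≤ ‖z 1 - q 1‖ := by
      have : ‖q 1‖ - ‖z 1‖ ≤ ‖q 1 - z 1‖ := norm_sub_norm_le _ _
      rw [norm_sub_rev] at this
      linarith
    have e3 : b ^ 2 + 2 ≤ K * ‖z 1 - q 1‖ ^ 2 := by
      have : b ^ 2 + 2 = K * (r / 4) ^ 2 := by
        rw [hK]; field_simp; ring
      rw [this]
      gcongr
    have e4 : ‖z 0‖ ^ 2 ≤ b ^ 2 := by gcongr
    unfold arg0
    linarith
  let φ : (Fin (m + 2) → ℂ) → ℝ := fun z =>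
    if r / 2 < ‖z 1‖ then FF m A K (q 1) z else A * S m z
  have hcase1 : ∀ z : Fin (m + 2) → ℂ, r / 2 < ‖z 1‖ → φ =ᶠ[𝓝 z] FF m A K (q 1) := by
    intro z hz
    have : {w : Fin (m + 2) → ℂ | r / 2 < ‖w 1‖} ∈ 𝓝 z :=
      (isOpen_lt continuous_const (by fun_prop)).mem_nhds hz
    filter_upwards [this] with w hw
    exact if_pos hw
  have hcase2 : ∀ z ∈ Dom m P, ‖z 1‖ < 3 * r / 4 → φ =ᶠ[𝓝 z] fun z => A * S m z := by
    intro z hzD hz
    have h1 : {w : Fin (m + 2) → ℂ | ‖w 1‖ < 3 * r / 4} ∈ 𝓝 z :=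
      (isOpen_lt (by fun_prop) continuous_const).mem_nhds hz
    filter_upwards [h1, (isOpen_Dom m hP).mem_nhds hzD] with w hw hwD
    by_cases hc : r / 2 < ‖w 1‖
    · change (if r / 2 < ‖w 1‖ then FF m A K (q 1) w else A * S m w) = _
      rw [if_pos hc]
      unfold FF
      rw [chi_nonpos (harg w hwD hc.le hw.le), add_zero]
    · exact if_neg hc
  have hFlevi : ∀ z ξ : Fin (m + 2) → ℂ, ∃ N : ℝ, 0 ≤ N ∧
      levi (FF m A K (q 1)) z ξ = ((S m ξ + N + ‖ξ 0‖ ^ 2 * deriv chi (arg0 m K (q 1) z) : ℝ) : ℂ) := by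
    intro z ξ
    obtain ⟨N, hN, h⟩ := levi_FF m A K (q 1) z ξ
    have h1 : ‖ξ 1‖ ^ 2 ≤ S m ξ := sq_le_S m ξ 0
    have h2 := deriv_chi_mem (arg0 m K (q 1) z)
    refine ⟨N + K * (S m ξ - ‖ξ 1‖ ^ 2 * deriv chi (arg0 m K (q 1) z)), ?_, ?_⟩
    · have : ‖ξ 1‖ ^ 2 * deriv chi (arg0 m K (q 1) z) ≤ S m ξ := by
        calc ‖ξ 1‖ ^ 2 * deriv chi (arg0 m K (q 1) z) ≤ ‖ξ 1‖ ^ 2 * 1 := by
              gcongr; exact h2.2
          _ ≤ S m ξ := by linarith
      have h3 : 0 ≤ S m ξ - ‖ξ 1‖ ^ 2 * deriv chi (arg0 m K (q 1) z) := by linarith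
      positivity
    · rw [h]
      congr 1
      rw [hA]
      ring
  refine ⟨φ, ⟨?_, ?_⟩, ?_, ?_⟩
  · intro z hz
    apply ContDiffAt.contDiffWithinAt
    rcases lt_or_ge (r / 2) ‖z 1‖ with h | h
    · exact (contDiff_FF m A K (q 1) le_rfl).contDiffAt.congr_of_eventuallyEq (hcase1 z h)
    · exact (contDiff_const.mul (contDiff_S m)).contDiffAt.congr_of_eventuallyEq
        (hcase2 z hz (by linarith))
  · intro z hz ξ
    rcases lt_or_ge (r / 2) ‖z 1‖ with h | h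
    · rw [levi_congr (hcase1 z h) (contDiff_FF m A K (q 1) two_le_infty).contDiffAt]
      obtain ⟨N, hN, h⟩ := hFlevi z ξ
      rw [h, Complex.zero_le_real]
      have h1 := S_nonneg m ξ
      have h2 := (deriv_chi_mem (arg0 m K (q 1) z)).1
      positivity
    · rw [levi_congr (hcase2 z hz (by linarith)) (contDiff_const.mul (contDiff_S m)).contDiffAt,
        levi_S, Complex.zero_le_real]
      have h1 := S_nonneg m ξ
      positivity
  · refine ⟨A * (m + 1) + (b ^ 2 + 1), ?_⟩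
    rintro _ ⟨z, hz, rfl⟩
    have h1 : A * S m z ≤ A * (m + 1) := by
      have := S_le hz
      gcongr
    by_cases hc : r / 2 < ‖z 1‖
    · change (if r / 2 < ‖z 1‖ then FF m A K (q 1) z else A * S m z) ≤ _
      rw [if_pos hc]
      unfold FF
      have h2 : chi (arg0 m K (q 1) z) ≤ b ^ 2 + 1 := by
        apply chi_le _ (by positivity)
        unfold arg0
        have e1 := hb z hz hc.le
        have e2 : ‖z 0‖ ^ 2 ≤ b ^ 2 := by gcongr
        have e3 : 0 ≤ K * ‖z 1 - q 1‖ ^ 2 := by positivity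
        linarith
      linarith
    · change (if r / 2 < ‖z 1‖ then FF m A K (q 1) z else A * S m z) ≤ _
      rw [if_neg hc]
      nlinarith [sq_nonneg b]
  · intro ξ hξ
    have hq2 : r / 2 < ‖q 1‖ := by rw [← hr]; linarith
    rw [levi_congr (hcase1 q hq2) (contDiff_FF m A K (q 1) two_le_infty).contDiffAt]
    obtain ⟨N, hN, h⟩ := hFlevi q ξ
    rw [h, Complex.zero_lt_real]
    have harg0 : 0 < arg0 m K (q 1) q := by
      unfold arg0
      simp
      positivity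
    have hd := deriv_chi_pos' harg0
    by_contra hc
    push Not at hc
    have h1 := S_nonneg m ξ
    have h2 : 0 ≤ ‖ξ 0‖ ^ 2 * deriv chi (arg0 m K (q 1) q) := by positivity
    have h3 : S m ξ = 0 := by linarith
    have h4 : ‖ξ 0‖ ^ 2 * deriv chi (arg0 m K (q 1) q) = 0 := by linarith
    apply hξ
    ext j
    refine Fin.cases ?_ (fun j => ?_) j
    · rcases mul_eq_zero.mp h4 with h5 | h5
      · simpa using h5
      · exact absurd h5 hd.ne'
    · have h6 := sq_le_S m ξ j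
      rw [h3] at h6
      have h7 : ‖ξ j.succ‖ ^ 2 = 0 := le_antisymm h6 (sq_nonneg _)
      simpa using h7

/-! ## The slice `z_1 = 0` lies in the core -/

lemma H_le_pow {m : ℕ} (k : ℕ) {z : Fin (m + 2) → ℂ} (hz : ‖z 1‖ < 1) :
    H k z ≤ ‖z 0‖ ^ (2 ^ k) := by
  induction k with
  | zero => simp [H_zero]
  | succ k ih =>
    calc H (k + 1) z ≤ H k z ^ 2 := H_succ_le hz
      _ ≤ (‖z 0‖ ^ (2 ^ k)) ^ 2 := pow_le_pow_left₀ (H_nonneg k z) ih 2
      _ = ‖z 0‖ ^ (2 ^ (k + 1)) := by rw [← pow_mul, pow_succ 2 k]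

lemma pt_lt_one (k : ℕ) : pt k < 1 := by linarith [pt_le k]

lemma H_disc {m : ℕ} (k : ℕ) {z : Fin (m + 2) → ℂ} (h1 : z 1 = (pt k : ℂ))
    (h0 : ‖z 0‖ ≤ (k : ℝ) + 2) : H (k + 1) z < 1 := by
  have hz1 : ‖z 1‖ < 1 := by
    rw [h1, norm_real, Real.norm_eq_abs, abs_of_pos (pt_pos k)]
    exact pt_lt_one k
  have hfac : fac k (z 1) = dl k / 2 := by
    unfold fac
    rw [h1, sub_self, norm_zero, max_eq_right (dl_pos k).le]
  have hk2 : (0 : ℝ) < (k : ℝ) + 2 := by positivity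
  change H k z ^ 2 * fac k (z 1) < 1
  rw [hfac]
  have h2 : H k z ^ 2 ≤ ((k : ℝ) + 2) ^ (2 ^ (k + 1)) := by
    calc H k z ^ 2 ≤ (‖z 0‖ ^ (2 ^ k)) ^ 2 := pow_le_pow_left₀ (H_nonneg k z) (H_le_pow k hz1) 2
      _ = ‖z 0‖ ^ (2 ^ (k + 1)) := by rw [← pow_mul, pow_succ 2 k]
      _ ≤ ((k : ℝ) + 2) ^ (2 ^ (k + 1)) := pow_le_pow_left₀ (norm_nonneg _) h0 _
  have h3 : (0 : ℝ) < ((k : ℝ) + 2) ^ (2 ^ (k + 1)) := by positivity
  calc H k z ^ 2 * (dl k / 2) ≤ ((k : ℝ) + 2) ^ (2 ^ (k + 1)) * (dl k / 2) := by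
        have := dl_pos k
        gcongr
    _ = 1 / 2 := by
        unfold dl
        field_simp
    _ < 1 := by norm_num

lemma tendsto_pt : Tendsto pt atTop (𝓝 0) := by
  have h : Tendsto (fun k : ℕ => (1 / 2 : ℝ) ^ (k + 1)) atTop (𝓝 0) :=
    (tendsto_add_atTop_iff_nat 1).mpr
      (tendsto_pow_atTop_nhds_zero_of_lt_one (by norm_num) (by norm_num))
  refine h.congr fun k => ?_
  unfold pt
  rw [one_div_pow]

lemma slice_mem_pt {m : ℕ} {p : Fin (m + 2) → ℂ} (hp : p ∈ Dom m univ) (hp1 : p 1 = 0) (k : ℕ)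
    {ζ : ℂ} (hζ : ‖ζ‖ ≤ (k : ℝ) + 2) : slice p ζ (pt k : ℂ) ∈ Dom m univ := by
  refine ⟨fun j hj => ?_, mem_univ _, k + 1, ?_⟩
  · by_cases h1 : j = 1
    · subst h1
      rw [slice_one, hp1, zero_add, norm_real, Real.norm_eq_abs, abs_of_pos (pt_pos k)]
      exact pt_lt_one k
    · rw [slice_other p ζ _ j hj h1]
      exact hp.1 j hj
  · apply H_disc
    · rw [slice_one, hp1, zero_add]
    · rw [slice_zero]
      exact hζ

theorem mem_core_Dom (m : ℕ) {p : Fin (m + 2) → ℂ} (hp : p ∈ Dom m univ) (hp1 : p 1 = 0) :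
    p ∈ core (Dom m univ) := by
  refine ⟨hp, ?_⟩
  rintro ⟨φ, ⟨hsm, hpsh⟩, ⟨M, hM⟩, hstrict⟩
  have hopen : IsOpen (Dom m univ) := isOpen_Dom m isOpen_univ
  have hMle : ∀ z ∈ Dom m univ, φ z ≤ M := fun z hz => hM ⟨z, hz, rfl⟩
  have hcd : ∀ z ∈ Dom m univ, ContDiffAt ℝ 2 φ z := fun z hz =>
    (hsm.contDiffAt (hopen.mem_nhds hz)).of_le two_le_infty
  -- slices are subharmonic
  have hlap : ∀ ζ w, slice p ζ w ∈ Dom m univ → 0 ≤ (Δ (fun x => φ (slice p x w))) ζ := by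
    intro ζ w h
    have h1 := hpsh _ h (Pi.single 0 1)
    have h2 := laplacian_slice (hcd _ h)
    have h3 : (0 : ℂ) ≤ (((Δ (fun x => φ (slice p x w))) ζ : ℝ) : ℂ) := by
      rw [h2]
      exact mul_nonneg (by norm_num) h1
    exact_mod_cast h3
  -- the slice `z_1 = 0` near `p 0`
  have hslice0 : Continuous (fun ζ : ℂ => slice p ζ 0) :=
    (continuous_slice p).comp (by fun_prop : Continuous (fun ζ : ℂ => ((ζ, (0 : ℂ)) : ℂ × ℂ)))
  -- main claim: local maximum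
  have hloc : IsLocalMax (fun x => φ (slice p x 0)) (p 0) := by
    have hnear : ∀ᶠ ζ in 𝓝 (p 0), slice p ζ 0 ∈ Dom m univ := by
      apply hslice0.continuousAt.eventually_mem
      rw [slice_self]
      exact hopen.mem_nhds hp
    filter_upwards [hnear] with ζ hmem0
    rw [slice_self]
    by_cases hne : ζ = p 0
    · rw [hne, slice_self]
    have hr2 : 0 < ‖ζ - p 0‖ := norm_pos_iff.mpr (sub_ne_zero.mpr hne)
    refine le_of_forall_pos_le_add fun η hη => ?_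
    -- joint continuity at `(p 0, 0)`
    have hcont : ContinuousAt (fun x : ℂ × ℂ => φ (slice p x.1 x.2)) (p 0, 0) := by
      have h1 : ContinuousAt φ (slice p ((p 0, (0:ℂ)) : ℂ × ℂ).1 ((p 0, (0:ℂ)) : ℂ × ℂ).2) := by
        simp only [slice_self]
        exact (hcd p hp).continuousAt
      exact ContinuousAt.comp (f := fun x : ℂ × ℂ => slice p x.1 x.2) h1
        (continuous_slice p).continuousAt
    have hlt : ∀ᶠ x in 𝓝 ((p 0, 0) : ℂ × ℂ), φ (slice p x.1 x.2) < φ p + η := by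
      apply hcont.eventually_lt_const
      simp only [slice_self]
      linarith
    obtain ⟨δ, hδ, hδ'⟩ := Metric.eventually_nhds_iff.mp hlt
    set r := min (δ / 2) (‖ζ - p 0‖ / 2) with hr
    have hr0 : 0 < r := by positivity
    have hrδ : r < δ := lt_of_le_of_lt (min_le_left _ _) (by linarith)
    have hrζ : r < ‖ζ - p 0‖ := lt_of_le_of_lt (min_le_right _ _) (by linarith)
    have hsmall : ∀ x w : ℂ, ‖x - p 0‖ = r → ‖w‖ < δ → φ (slice p x w) ≤ φ p + η := by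
      intro x w hx hw
      have : dist ((x, w) : ℂ × ℂ) (p 0, 0) < δ := by
        rw [Prod.dist_eq]
        simp only [dist_eq_norm, sub_zero]
        exact max_lt (by rw [hx]; exact hrδ) hw
      exact (hδ' this).le
    -- the three circles estimate on the slices `z_1 = a_k`
    set K : ℝ := max 0 (M - (φ p + η)) * Real.log (‖ζ - p 0‖ / r) with hK
    have hRlim : Tendsto (fun k : ℕ => (k : ℝ) + 2 - ‖p 0‖) atTop atTop := by
      have h1 : Tendsto (fun k : ℕ => (k : ℝ)) atTop atTop := tendsto_natCast_atTop_atTop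
      have h2 := tendsto_atTop_add_const_right atTop (2 - ‖p 0‖) h1
      refine h2.congr fun k => ?_
      ring
    have hest : ∀ᶠ k : ℕ in atTop, φ (slice p ζ (pt k : ℂ)) ≤
        φ p + η + K / Real.log (((k : ℝ) + 2 - ‖p 0‖) / r) := by
      have e1 : ∀ᶠ k in atTop, pt k < δ := tendsto_pt.eventually_lt_const hδ
      have e2 : ∀ᶠ k : ℕ in atTop, ‖ζ - p 0‖ + 1 < (k : ℝ) + 2 - ‖p 0‖ :=
        hRlim.eventually_gt_atTop _
      filter_upwards [e1, e2] with k hk1 hk2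
      have htn : ‖(pt k : ℂ)‖ = pt k := by
        rw [norm_real, Real.norm_eq_abs, abs_of_pos (pt_pos k)]
      have hζR : ‖ζ - p 0‖ < (k : ℝ) + 2 - ‖p 0‖ := by linarith
      have hrR : r < (k : ℝ) + 2 - ‖p 0‖ := hrζ.trans hζR
      have hmem : ∀ x : ℂ, ‖x - p 0‖ ≤ (k : ℝ) + 2 - ‖p 0‖ →
          slice p x (pt k : ℂ) ∈ Dom m univ := by
        intro x hx
        apply slice_mem_pt hp hp1
        calc ‖x‖ = ‖(x - p 0) + p 0‖ := by ring_nf
          _ ≤ ‖x - p 0‖ + ‖p 0‖ := norm_add_le _ _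
          _ ≤ (k : ℝ) + 2 := by linarith
      have hlogR : 0 < Real.log (((k : ℝ) + 2 - ‖p 0‖) / r) := by
        apply Real.log_pos
        rw [lt_div_iff₀ hr0]
        linarith
      have hA := annulus_max (v := fun x => φ (slice p x (pt k : ℂ))) (c := p 0) (r := r)
        (R := (k : ℝ) + 2 - ‖p 0‖) (m := φ p + η)
        (a := max 0 (M - (φ p + η)) / Real.log (((k : ℝ) + 2 - ‖p 0‖) / r)) hr0 hrR
        (fun x _ hx => ContDiffAt.comp x (hcd _ (hmem x hx)) (contDiff_slice p _).contDiffAt)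
        (fun x _ hx => hlap x _ (hmem x hx))
        (fun x hx => hsmall x _ hx (by rw [htn]; exact hk1))
        (fun x hx => by
          rw [div_mul_cancel₀ _ hlogR.ne']
          have h1 := hMle _ (hmem x hx.le)
          have h2 := le_max_right 0 (M - (φ p + η))
          linarith)
        (x := ζ) hrζ.le hζR.le
      refine hA.trans (le_of_eq ?_)
      rw [hK]
      ring
    have hlim1 : Tendsto (fun k : ℕ => φ (slice p ζ (pt k : ℂ))) atTop (𝓝 (φ (slice p ζ 0))) := by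
      have hc1 : ContinuousAt φ (slice p ζ 0) := (hcd _ hmem0).continuousAt
      have hc2 : Tendsto (fun k : ℕ => slice p ζ (pt k : ℂ)) atTop (𝓝 (slice p ζ 0)) := by
        have hc3 : Continuous (fun t : ℝ => slice p ζ (t : ℂ)) :=
          (continuous_slice p).comp (by fun_prop : Continuous (fun t : ℝ => ((ζ, (t : ℂ)) : ℂ × ℂ)))
        have h4 := (hc3.tendsto 0).comp tendsto_pt
        simpa [Function.comp_def] using h4
      exact hc1.tendsto.comp hc2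
    have hlim2 : Tendsto (fun k : ℕ => φ p + η + K / Real.log (((k : ℝ) + 2 - ‖p 0‖) / r)) atTop
        (𝓝 (φ p + η + 0)) := by
      refine Tendsto.add tendsto_const_nhds ?_
      apply Tendsto.div_atTop tendsto_const_nhds
      apply Real.tendsto_log_atTop.comp
      exact Tendsto.atTop_div_const hr0 hRlim
    rw [add_zero] at hlim2
    exact le_of_tendsto_of_tendsto hlim1 hlim2 hest
  -- conclusion
  have h1 : ContDiffAt ℝ 2 (fun x => φ (slice p x 0)) (p 0) := by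
    refine ContDiffAt.comp (p 0) ?_ (contDiff_slice p _).contDiffAt
    rw [slice_self]
    exact hcd p hp
  have h2 := D2_nonpos_of_isLocalMax h1 hloc 1
  have h3 := D2_nonpos_of_isLocalMax h1 hloc I
  have hcdp : ContDiffAt ℝ 2 φ (slice p (p 0) 0) := by
    rw [slice_self]; exact hcd p hp
  have h4 := laplacian_slice (φ := φ) (p := p) (ζ := p 0) (w := 0) hcdp
  have h5 : 0 < levi φ (slice p (p 0) 0) (Pi.single 0 1) := by
    rw [slice_self]
    apply hstrict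
    intro h
    have := congrFun h 0
    simp at this
  have h6 : (0 : ℂ) < (((Δ (fun x => φ (slice p x 0))) (p 0) : ℝ) : ℂ) := by
    rw [h4]
    exact mul_pos (by norm_num) h5
  have h7 : 0 < (Δ (fun x => φ (slice p x 0))) (p 0) := by exact_mod_cast h6
  rw [laplacian_eq_D2] at h7
  linarith

/-! ## The main result -/

lemma core_bounded {n : ℕ} {D : Set (Fin n → ℂ)} {b : ℝ} (hb : ∀ z ∈ D, ∀ j, ‖z j‖ ≤ b) :
    core D = ∅ := by
  rw [Set.eq_empty_iff_forall_notMem]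
  rintro z ⟨hz, hcon⟩
  apply hcon
  refine ⟨psi1 n, ⟨(contDiff_psi1 n).contDiffOn, fun w _ ξ => ?_⟩, ?_, fun ξ hξ => ?_⟩
  · rw [levi_psi1]
    rw [Complex.zero_le_real]
    positivity
  · refine ⟨n * b ^ 2, ?_⟩
    rintro _ ⟨w, hw, rfl⟩
    unfold psi1
    calc ∑ j, ‖w j‖ ^ 2 ≤ ∑ _j : Fin n, b ^ 2 := by
          refine Finset.sum_le_sum fun j _ => ?_
          have := hb w hw j
          gcongr
      _ = n * b ^ 2 := by simp
  · rw [levi_psi1]
    rw [Complex.zero_lt_real]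
    obtain ⟨j, hj⟩ : ∃ j, ξ j ≠ 0 := by
      by_contra hc
      push Not at hc
      exact hξ (funext hc)
    have h1 : 0 < ‖ξ j‖ ^ 2 := by positivity
    have h2 : ‖ξ j‖ ^ 2 ≤ ∑ j, ‖ξ j‖ ^ 2 :=
      Finset.single_le_sum (f := fun j => ‖ξ j‖ ^ 2) (fun i _ => by positivity) (Finset.mem_univ j)
    linarith

/-- **Main result.** In every dimension `n ≥ 2` there are domains `G ⊆ Ω` of `ℂⁿ` with
`core Ω ⊆ G` but `core G ≠ core Ω`; both domains are holomorphically convex, `G` is bounded,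
`core G` is empty and `core Ω` is the nonempty intersection of `Ω` with a coordinate hyperplane. -/
theorem result (n : ℕ) (hn : 2 ≤ n) :
    ∃ Ω G : Set (Fin n → ℂ), (IsOpen Ω ∧ IsConnected Ω) ∧ (IsOpen G ∧ IsConnected G) ∧ G ⊆ Ω ∧
      core Ω ⊆ G ∧ core G ≠ core Ω ∧
      HolConvex Ω ∧ HolConvex G ∧ Bornology.IsBounded G ∧ core G = ∅ ∧
      (core Ω).Nonempty ∧ ∃ j, core Ω = {z | z ∈ Ω ∧ z j = 0} := by
  obtain ⟨m, rfl⟩ : ∃ m, n = m + 2 := ⟨n - 2, by omega⟩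
  have hsolid : ∀ ζ ∈ ball (0 : ℂ) 8, ∀ η : ℂ, ‖η‖ ≤ ‖ζ‖ → η ∈ ball (0 : ℂ) 8 := by
    intro ζ hζ η hη
    rw [mem_ball_zero_iff] at hζ ⊢
    exact hη.trans_lt hζ
  have hcore : core (Dom m univ) = {z | z ∈ Dom m univ ∧ z 1 = 0} := by
    ext z
    exact ⟨fun hz => ⟨hz.1, core_Dom_subset m isOpen_univ hz⟩, fun hz => mem_core_Dom m hz.1 hz.2⟩
  have hne : (core (Dom m univ)).Nonempty :=
    ⟨0, mem_core_Dom m (zero_mem_Dom m (mem_univ 0)) rfl⟩
  have hbd : ∀ z ∈ Dom m (ball (0 : ℂ) 8), ∀ j, ‖z j‖ ≤ 8 := by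
    rintro z ⟨h1, h2, _⟩ j
    by_cases hj : j = 0
    · subst hj
      rw [mem_ball_zero_iff] at h2
      exact h2.le
    · have := h1 j hj
      linarith
  have hempty : core (Dom m (ball (0 : ℂ) 8)) = ∅ := core_bounded hbd
  refine ⟨Dom m univ, Dom m (ball 0 8),
    ⟨isOpen_Dom m isOpen_univ, isConnected_Dom m (mem_univ 0) (fun _ _ _ _ => mem_univ _)⟩,
    ⟨isOpen_Dom m isOpen_ball, isConnected_Dom m (mem_ball_self (by norm_num)) hsolid⟩,
    ?_, ?_, ?_, holConvex_Dom m (fun _ _ _ _ => mem_univ _), holConvex_Dom m hsolid, ?_, hempty,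
    hne, 1, hcore⟩
  · rintro z ⟨h1, _, h3⟩
    exact ⟨h1, mem_univ _, h3⟩
  · intro z hz
    rw [hcore] at hz
    refine ⟨hz.1.1, ?_, hz.1.2.2⟩
    rw [mem_ball_zero_iff]
    exact norm_lt_of_slice hz.1 hz.2
  · rw [hempty]
    exact hne.ne_empty.symm
  · rw [isBounded_iff_forall_norm_le]
    refine ⟨8, fun z hz => ?_⟩
    rw [pi_norm_le_iff_of_nonneg (by norm_num)]
    exact hbd z hz

end Pool.Agent.Results.MP_902c37_an.PseudoconvexSubdomain
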